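import Pool.Agent.Lib.MP_716709_gt.Light93.Dyadic
import Pool.Agent.Lib.MP_716709_gt.Upper.Sampling

/-!
The random cascade along the tree of components.
-/

set_option autoImplicit false
set_option linter.unusedSectionVars false
set_option linter.unusedVariables false

namespace Pool.Agent.Lib.MP_716709_gt.Light93

open Finset
open Pool.Agent.Lib.MP_716709_gt.Upper

/-- one sign for each level and each component -/
abbrev Om (M : Type) (J : ℕ) : Type := (Fin J × Finset M) → Bool

section base

variable {M : Type} [Fintype M] [DecidableEq M] {J : ℕ}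

/-- the sign of the component `T` at level `j` -/
noncomputable def sg (ω : Om M J) (j : ℕ) (T : Finset M) : ℝ :=
  if h : j < J then (if ω (⟨j, h⟩, T) then 1 else -1) else 1

theorem sg_sq (ω : Om M J) (j : ℕ) (T : Finset M) : sg ω j T * sg ω j T = 1 := by
  unfold sg
  split_ifs <;> norm_num

theorem abs_sg (ω : Om M J) (j : ℕ) (T : Finset M) : |sg ω j T| = 1 := by
  unfold sg
  split_ifs <;> norm_num

/-- the uniform weights -/
noncomputable def un (M : Type) [Fintype M] [DecidableEq M] (J : ℕ) : Om M J → ℝ :=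
  fun _ => 1 / (Fintype.card (Om M J) : ℝ)

theorem isProb_un : IsProb (un M J) where
  nonneg _ := by unfold un; positivity
  sum_one := by
    unfold un
    rw [sum_const, card_univ, nsmul_eq_mul]
    have : (Fintype.card (Om M J) : ℝ) ≠ 0 := by
      exact_mod_cast Fintype.card_ne_zero
    field_simp

/-- the average of a function times a sign on which it does not depend -/
theorem Ex_sg {j : ℕ} (hj : j < J) (T : Finset M) (g : Om M J → ℝ)
    (hg : ∀ ω ω' : Om M J, (∀ i T', (i ≠ j ∨ T' ≠ T) → sg ω i T' = sg ω' i T') → g ω = g ω') :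
    Ex (un M J) (fun ω => g ω * sg ω j T) = 0 := by
  classical
  set i0 : Fin J × Finset M := (⟨j, hj⟩, T) with hi0
  set F : Om M J → Om M J := fun ω => Function.update ω i0 (!ω i0) with hF
  have hinv : Function.Involutive F := by
    intro ω
    funext i
    simp only [hF]
    by_cases h : i = i0
    · subst h; simp
    · simp [Function.update_of_ne h]
  have h1 : ∀ ω, g (F ω) = g ω := by
    intro ω
    apply hg
    intro i T' hiT
    unfold sg
    by_cases h : i < J
    · rw [dif_pos h, dif_pos h]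
      have hne : ((⟨i, h⟩, T') : Fin J × Finset M) ≠ i0 := by
        intro he
        rw [hi0, Prod.mk.injEq, Fin.mk.injEq] at he
        rcases hiT with h2 | h2
        · exact h2 he.1
        · exact h2 he.2
      simp only [hF, Function.update_of_ne hne]
    · rw [dif_neg h, dif_neg h]
  have h2 : ∀ ω, sg (F ω) j T = - sg ω j T := by
    intro ω
    unfold sg
    rw [dif_pos hj, dif_pos hj]
    have h3 : F ω (⟨j, hj⟩, T) = !ω (⟨j, hj⟩, T) := by
      simp only [hF, hi0, Function.update_self]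
    rw [h3]
    cases ω (⟨j, hj⟩, T) <;> simp
  have h3 : ∑ ω, un M J ω * (g ω * sg ω j T) = - ∑ ω, un M J ω * (g ω * sg ω j T) := by
    conv_lhs => rw [← Equiv.sum_comp (hinv.toPerm F)]
    rw [← sum_neg_distrib]
    refine sum_congr rfl fun ω _ => ?_
    have h4 : (hinv.toPerm F) ω = F ω := rfl
    rw [h4, h1, h2]
    unfold un
    ring
  unfold Ex
  linarith

end base

section cascade

variable {M : Type} [Fintype M] [DecidableEq M] {J : ℕ} (y : M → ℝ) (ρ : M → M → ℝ) (D lam : ℝ)

open Classical in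
/-- the size of the noise in the component of `u` at level `j` when the density is `s` -/
noncomputable def amp (j : ℕ) (u : M) (s : ℝ) : ℝ :=
  if Small y ρ j u ∧ s < lam then 1 / D else 0

open Classical in
/-- the density of the component of `u` -/
noncomputable def S (ω : Om M J) (u : M) : ℕ → ℝ
  | 0 => 1
  | j + 1 => S ω u j * (1 + (if 1 / 2 ≤ fr (y u) j then -1 else 1) *
      (sg ω j (C y ρ j u) * amp y ρ D lam j u (S ω u j)))

open Classical in
/-- the left value of the component of `u` -/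
noncomputable def A (ω : Om M J) (u : M) : ℕ → ℝ
  | 0 => 0
  | j + 1 => A ω u j + (if 1 / 2 ≤ fr (y u) j then S y ρ D lam ω u j *
      (1 + sg ω j (C y ρ j u) * amp y ρ D lam j u (S y ρ D lam ω u j)) / 2 ^ (j + 1) else 0)

/-- the value with linear interpolation at level `j` -/
noncomputable def G (ω : Om M J) (u : M) (j : ℕ) : ℝ :=
  A y ρ D lam ω u j + S y ρ D lam ω u j * fr (y u) j / 2 ^ j

/-- the random function -/
noncomputable def F (ω : Om M J) (u : M) : ℝ := G y ρ D lam ω u J

variable {y ρ D lam}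

theorem G_succ (ω : Om M J) (u : M) (j : ℕ) :
    G y ρ D lam ω u (j + 1) = G y ρ D lam ω u j + S y ρ D lam ω u j *
      amp y ρ D lam j u (S y ρ D lam ω u j) * tent (y u) j * sg ω j (C y ρ j u) := by
  unfold G tent
  have hp : (2 : ℝ) ^ j ≠ 0 := by positivity
  by_cases h : 1 / 2 ≤ fr (y u) j
  · rw [fr_succ_hi h, A, S, if_pos h, if_pos h,
      min_eq_right (show 1 - fr (y u) j ≤ fr (y u) j by linarith), pow_succ]
    field_simp
    ring
  · rw [fr_succ_lo h, A, S, if_neg h, if_neg h]
    push Not at h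
    rw [min_eq_left (show fr (y u) j ≤ 1 - fr (y u) j by linarith), pow_succ]
    field_simp
    ring

theorem amp_nonneg (hD : 1 ≤ D) (j : ℕ) (u : M) (s : ℝ) : 0 ≤ amp y ρ D lam j u s := by
  unfold amp
  split_ifs
  · positivity
  · exact le_rfl

theorem amp_le (hD : 1 ≤ D) (j : ℕ) (u : M) (s : ℝ) : amp y ρ D lam j u s ≤ 1 / D := by
  unfold amp
  split_ifs
  · exact le_rfl
  · positivity

theorem amp_le_one (hD : 1 ≤ D) (j : ℕ) (u : M) (s : ℝ) : amp y ρ D lam j u s ≤ 1 := by
  refine (amp_le hD j u s).trans ?_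
  rw [div_le_one (by linarith)]
  exact hD

theorem noise_abs (hD : 1 ≤ D) (ω : Om M J) (j : ℕ) (T : Finset M) (u : M) (s : ℝ) :
    |sg ω j T * amp y ρ D lam j u s| ≤ 1 := by
  rw [abs_mul, abs_sg, one_mul, abs_of_nonneg (amp_nonneg hD j u s)]
  exact amp_le_one hD j u s

/-- the density is nonnegative and bounded -/
theorem S_bounds (hD : 1 ≤ D) (hl : 1 ≤ lam) (ω : Om M J) (u : M) (j : ℕ) :
    0 ≤ S y ρ D lam ω u j ∧ S y ρ D lam ω u j ≤ 2 * lam := by
  induction j with
  | zero => simp only [S]; constructor <;> linarith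
  | succ j ih =>
    rw [S]
    have hn := abs_le.1 (noise_abs (y := y) (ρ := ρ) (lam := lam) hD ω j (C y ρ j u) u
      (S y ρ D lam ω u j))
    set e := sg ω j (C y ρ j u) * amp y ρ D lam j u (S y ρ D lam ω u j) with he
    have h0 : 0 ≤ 1 + (if 1 / 2 ≤ fr (y u) j then (-1 : ℝ) else 1) * e := by
      split_ifs <;> linarith [hn.1, hn.2]
    refine ⟨mul_nonneg ih.1 h0, ?_⟩
    by_cases hs : S y ρ D lam ω u j < lam
    · have h1 : 1 + (if 1 / 2 ≤ fr (y u) j then (-1 : ℝ) else 1) * e ≤ 2 := by
        split_ifs <;> linarith [hn.1, hn.2]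
      calc S y ρ D lam ω u j * (1 + (if 1 / 2 ≤ fr (y u) j then (-1 : ℝ) else 1) * e)
          ≤ S y ρ D lam ω u j * 2 := mul_le_mul_of_nonneg_left h1 ih.1
        _ ≤ 2 * lam := by linarith
    · have h2 : amp y ρ D lam j u (S y ρ D lam ω u j) = 0 := by
        unfold amp
        rw [if_neg (fun h => hs h.2)]
      rw [he, h2, mul_zero, mul_zero, add_zero, mul_one]
      exact ih.2

/-- the values depend only on the signs of the components of `u` -/
theorem SA_congr {ω ω' : Om M J} (u : M) (j : ℕ)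
    (h : ∀ i < j, sg ω i (C y ρ i u) = sg ω' i (C y ρ i u)) :
    S y ρ D lam ω u j = S y ρ D lam ω' u j ∧ A y ρ D lam ω u j = A y ρ D lam ω' u j := by
  induction j with
  | zero => simp only [S, A, and_self]
  | succ j ih =>
    obtain ⟨h1, h2⟩ := ih fun i hi => h i (by omega)
    rw [S, S, A, A, h1, h2, h j (by omega)]
    exact ⟨rfl, rfl⟩

theorem G_congr {ω ω' : Om M J} (u : M) (j : ℕ)
    (h : ∀ i < j, sg ω i (C y ρ i u) = sg ω' i (C y ρ i u)) :
    G y ρ D lam ω u j = G y ρ D lam ω' u j := by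
  obtain ⟨h1, h2⟩ := SA_congr (y := y) (ρ := ρ) (D := D) (lam := lam) u j h
  unfold G
  rw [h1, h2]

/-- points in the same component have the same values -/
theorem SA_same (hsym : ∀ a b, ρ a b = ρ b a) (ω : Om M J) {u v : M} {j : ℕ}
    (h : C y ρ j u = C y ρ j v) :
    S y ρ D lam ω u j = S y ρ D lam ω v j ∧ A y ρ D lam ω u j = A y ρ D lam ω v j := by
  induction j with
  | zero => simp only [S, A, and_self]
  | succ j ih =>
    have hj := C_eq_pred hsym h
    obtain ⟨h1, h2⟩ := ih hj
    have hix : ix (y u) (j + 1) = ix (y v) (j + 1) := (conn_of_C_eq h).ix_eq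
    have hix' : ix (y u) j = ix (y v) j := (conn_of_C_eq hj).ix_eq
    have hbit : (1 / 2 ≤ fr (y u) j) ↔ (1 / 2 ≤ fr (y v) j) := by
      by_cases hu : 1 / 2 ≤ fr (y u) j <;> by_cases hv : 1 / 2 ≤ fr (y v) j
      · exact ⟨fun _ => hv, fun _ => hu⟩
      · rw [ix_succ_hi hu, ix_succ_lo hv] at hix; omega
      · rw [ix_succ_lo hu, ix_succ_hi hv] at hix; omega
      · exact ⟨fun hh => absurd hh hu, fun hh => absurd hh hv⟩
    have hsm : Small y ρ j u ↔ Small y ρ j v := by
      unfold Small
      rw [hj, C_eq_le hsym (Nat.sub_le j 1) hj]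
    have hamp : ∀ s, amp y ρ D lam j u s = amp y ρ D lam j v s := by
      intro s
      unfold amp
      by_cases h5 : Small y ρ j v ∧ s < lam
      · rw [if_pos h5, if_pos ⟨hsm.2 h5.1, h5.2⟩]
      · rw [if_neg h5, if_neg (fun h6 => h5 ⟨hsm.1 h6.1, h6.2⟩)]
    rw [S, S, A, A, h1, h2, hj, hamp]
    by_cases h5 : 1 / 2 ≤ fr (y v) j
    · rw [if_pos h5, if_pos h5, if_pos (hbit.2 h5), if_pos (hbit.2 h5)]
      exact ⟨rfl, rfl⟩
    · rw [if_neg h5, if_neg h5, if_neg (fun h6 => h5 (hbit.1 h6)),
        if_neg (fun h6 => h5 (hbit.1 h6))]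
      exact ⟨rfl, rfl⟩

/-! expectations -/

theorem Ex_S (u : M) {j : ℕ} (hj : j ≤ J) : Ex (un M J) (fun ω => S y ρ D lam ω u j) = 1 := by
  induction j with
  | zero => simp only [S]; exact Ex_const isProb_un 1
  | succ j ih =>
    have h1 : (fun ω : Om M J => S y ρ D lam ω u (j + 1)) = fun ω => S y ρ D lam ω u j +
        ((if 1 / 2 ≤ fr (y u) j then (-1 : ℝ) else 1) * S y ρ D lam ω u j *
          amp y ρ D lam j u (S y ρ D lam ω u j)) * sg ω j (C y ρ j u) := by
      funext ω
      rw [S]; ring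
    rw [h1, Ex_add, ih (by omega), Ex_sg (by omega), add_zero]
    intro ω ω' h
    have h2 := (SA_congr (y := y) (ρ := ρ) (D := D) (lam := lam) u j
      (fun i hi => h i _ (Or.inl (by omega)))).1
    rw [h2]

theorem Ex_G (u : M) (h0 : 0 ≤ y u) (h1 : y u < 1) {j : ℕ} (hj : j ≤ J) :
    Ex (un M J) (fun ω => G y ρ D lam ω u j) = y u := by
  induction j with
  | zero =>
    have h2 : fr (y u) 0 = y u := by
      unfold fr
      rw [pow_zero, one_mul]
      exact Int.fract_eq_self.2 ⟨h0, h1⟩
    have h3 : (fun ω : Om M J => G y ρ D lam ω u 0) = fun _ => y u := by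
      funext ω
      unfold G
      simp only [S, A, h2, pow_zero, div_one, one_mul, zero_add]
    rw [h3]; exact Ex_const isProb_un _
  | succ j ih =>
    have h2 : (fun ω : Om M J => G y ρ D lam ω u (j + 1)) = fun ω => G y ρ D lam ω u j +
        (S y ρ D lam ω u j * amp y ρ D lam j u (S y ρ D lam ω u j) * tent (y u) j) *
          sg ω j (C y ρ j u) := by
      funext ω
      rw [G_succ]
    rw [h2, Ex_add, ih (by omega), Ex_sg (by omega), add_zero]
    intro ω ω' h
    have h3 := (SA_congr (y := y) (ρ := ρ) (D := D) (lam := lam) u j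
      (fun i hi => h i _ (Or.inl (by omega)))).1
    rw [h3]

open Classical in
theorem Ex_S_sq (hD : 1 ≤ D) (u : M) {j : ℕ} (hj : j ≤ J) :
    Ex (un M J) (fun ω => S y ρ D lam ω u j ^ 2) ≤ (1 + 1 / D ^ 2) ^ cnt y ρ u j := by
  induction j with
  | zero =>
    simp only [S, cnt, one_pow, pow_zero]
    rw [Ex_const isProb_un]
  | succ j ih =>
    have ih' := ih (by omega)
    have h1 : (fun ω : Om M J => S y ρ D lam ω u (j + 1) ^ 2) = fun ω =>
        (S y ρ D lam ω u j ^ 2 + S y ρ D lam ω u j ^ 2 *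
          amp y ρ D lam j u (S y ρ D lam ω u j) ^ 2) +
        (2 * (if 1 / 2 ≤ fr (y u) j then (-1 : ℝ) else 1) * S y ρ D lam ω u j ^ 2 *
          amp y ρ D lam j u (S y ρ D lam ω u j)) * sg ω j (C y ρ j u) := by
      funext ω
      rw [S]
      have hs := sg_sq ω j (C y ρ j u)
      have hb : (if 1 / 2 ≤ fr (y u) j then (-1 : ℝ) else 1) ^ 2 = 1 := by
        split_ifs <;> norm_num
      set b := (if 1 / 2 ≤ fr (y u) j then (-1 : ℝ) else 1)
      set a := amp y ρ D lam j u (S y ρ D lam ω u j)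
      set s := sg ω j (C y ρ j u)
      set x := S y ρ D lam ω u j
      have : (x * (1 + b * (s * a))) ^ 2 = x ^ 2 + x ^ 2 * a ^ 2 * (b ^ 2 * (s * s)) +
          2 * b * x ^ 2 * a * s := by ring
      rw [this, hb, hs]; ring
    rw [h1, Ex_add, Ex_sg (by omega), add_zero]
    · by_cases hsm : Small y ρ j u
      · have h2 : cnt y ρ u (j + 1) = cnt y ρ u j + 1 := by rw [cnt, if_pos hsm]
        rw [h2, pow_succ]
        calc Ex (un M J) (fun ω => S y ρ D lam ω u j ^ 2 + S y ρ D lam ω u j ^ 2 *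
              amp y ρ D lam j u (S y ρ D lam ω u j) ^ 2)
            ≤ Ex (un M J) (fun ω => (1 + 1 / D ^ 2) * S y ρ D lam ω u j ^ 2) := by
              apply Ex_mono isProb_un
              intro ω
              have h3 : amp y ρ D lam j u (S y ρ D lam ω u j) ^ 2 ≤ (1 / D) ^ 2 :=
                pow_le_pow_left₀ (amp_nonneg hD _ _ _) (amp_le hD _ _ _) 2
              have h4 : (1 / D) ^ 2 = 1 / D ^ 2 := by rw [div_pow, one_pow]
              rw [h4] at h3
              have h5 := mul_le_mul_of_nonneg_left h3 (sq_nonneg (S y ρ D lam ω u j))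
              linarith
          _ = (1 + 1 / D ^ 2) * Ex (un M J) (fun ω => S y ρ D lam ω u j ^ 2) := Ex_mul_left _ _
          _ ≤ (1 + 1 / D ^ 2) * (1 + 1 / D ^ 2) ^ cnt y ρ u j :=
              mul_le_mul_of_nonneg_left ih' (by positivity)
          _ = _ := by ring
      · have h2 : cnt y ρ u (j + 1) = cnt y ρ u j := by rw [cnt, if_neg hsm, add_zero]
        rw [h2]
        refine le_trans (le_of_eq ?_) ih'
        congr 1
        funext ω
        have h3 : amp y ρ D lam j u (S y ρ D lam ω u j) = 0 := by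
          unfold amp
          rw [if_neg (fun h => hsm h.1)]
        rw [h3]; ring
    · intro ω ω' h
      have h3 := (SA_congr (y := y) (ρ := ρ) (D := D) (lam := lam) u j
        (fun i hi => h i _ (Or.inl (by omega)))).1
      rw [h3]

/-- the average amount of noise in a small component -/
theorem Ex_S_amp (hD : 1 ≤ D) (hl : 0 < lam) (u : M) {j : ℕ} (hj : j ≤ J) (hsm : Small y ρ j u)
    (hlam : 2 * (1 + 1 / D ^ 2) ^ cnt y ρ u j ≤ lam) (hl1 : 1 ≤ lam) :
    1 / (2 * D) ≤ Ex (un M J) (fun ω => S y ρ D lam ω u j *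
      amp y ρ D lam j u (S y ρ D lam ω u j)) := by
  have hD0 : 0 < D := by linarith
  have h1 : Ex (un M J) (fun ω => (1 / D) * S y ρ D lam ω u j -
      (1 / D) * (1 / lam) * S y ρ D lam ω u j ^ 2) ≤
      Ex (un M J) (fun ω => S y ρ D lam ω u j * amp y ρ D lam j u (S y ρ D lam ω u j)) := by
    apply Ex_mono isProb_un
    intro ω
    have hS := S_bounds (y := y) (ρ := ρ) hD hl1 ω u j
    set s := S y ρ D lam ω u j with hs
    unfold amp
    by_cases hc : s < lam
    · rw [if_pos ⟨hsm, hc⟩]
      have : 0 ≤ (1 / D) * (1 / lam) * s ^ 2 := by positivity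
      linarith
    · rw [if_neg (fun h => hc h.2), mul_zero]
      push Not at hc
      have h2 : (1 / D) * s - (1 / D) * (1 / lam) * s ^ 2 = (1 / D) * s * (1 - s / lam) := by
        field_simp
      rw [h2]
      have h3 : 1 ≤ s / lam := by rw [le_div_iff₀ hl]; linarith
      have h4 : 0 ≤ (1 / D) * s := mul_nonneg (by positivity) hS.1
      nlinarith
  refine le_trans ?_ h1
  rw [Ex_sub, Ex_mul_left, Ex_mul_left, Ex_S u hj]
  have h2 := Ex_S_sq (y := y) (ρ := ρ) (lam := lam) hD u hj
  have h3 : (1 / D) * (1 / lam) * Ex (un M J) (fun ω => S y ρ D lam ω u j ^ 2) ≤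
      (1 / D) * (1 / lam) * (lam / 2) := by
    apply mul_le_mul_of_nonneg_left _ (by positivity)
    linarith
  have h4 : (1 / D) * (1 / lam) * (lam / 2) = 1 / (2 * D) := by field_simp
  have h5 : (1 / D) * 1 = 1 / (2 * D) + 1 / (2 * D) := by field_simp; norm_num
  linarith

end cascade

end Pool.Agent.Lib.MP_716709_gt.Light93
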