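import Mathlib

/-!
A potential made of Huber functions of dyadic scales.
-/

set_option autoImplicit false
set_option linter.unusedSectionVars false
set_option linter.unusedVariables false

namespace Pool.Agent.Lib.MP_716709_gt.Light93

open Finset

/-- the Huber function -/
noncomputable def hub (a t : ℝ) : ℝ := if |t| ≤ a then t ^ 2 / (2 * a) else |t| - a / 2

theorem hub_ge {a : ℝ} (ha : 0 < a) (s t : ℝ) (hs : |s| ≤ 1) :
    s * t - a * s ^ 2 / 2 ≤ hub a t := by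
  unfold hub
  by_cases h : |t| ≤ a
  · rw [if_pos h]
    have h1 : t ^ 2 / (2 * a) - (s * t - a * s ^ 2 / 2) = (t - a * s) ^ 2 / (2 * a) := by
      field_simp; ring
    have h2 : 0 ≤ (t - a * s) ^ 2 / (2 * a) := by positivity
    linarith
  · rw [if_neg h]
    push Not at h
    have h1 : s * t ≤ |s| * |t| := by rw [← abs_mul]; exact le_abs_self _
    have h2 : s ^ 2 = |s| ^ 2 := (sq_abs s).symm
    rw [h2]
    have h3 : 0 ≤ |s| := abs_nonneg s
    have h4 : 0 ≤ (1 - |s|) * (|t| - a / 2 * (1 + |s|)) := by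
      apply mul_nonneg (by linarith)
      nlinarith
    nlinarith

theorem hub_eq {a : ℝ} (ha : 0 < a) (t : ℝ) :
    ∃ s : ℝ, |s| ≤ 1 ∧ hub a t = s * t - a * s ^ 2 / 2 := by
  unfold hub
  by_cases h : |t| ≤ a
  · rw [if_pos h]
    refine ⟨t / a, ?_, ?_⟩
    · rw [abs_div, abs_of_pos ha, div_le_one ha]; exact h
    · field_simp; ring
  · rw [if_neg h]
    rcases le_or_gt 0 t with h0 | h0
    · refine ⟨1, by simp, ?_⟩
      rw [abs_of_nonneg h0]; ring
    · refine ⟨-1, by simp, ?_⟩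
      rw [abs_of_neg h0]; ring

theorem hub_mid {a : ℝ} (ha : 0 < a) (x y : ℝ) :
    hub a ((x + y) / 2) ≤ (hub a x + hub a y) / 2 := by
  obtain ⟨s, hs, he⟩ := hub_eq ha ((x + y) / 2)
  have h1 := hub_ge ha s x hs
  have h2 := hub_ge ha s y hs
  rw [he]
  linarith

theorem hub_gap {a : ℝ} (ha : 0 < a) {x y : ℝ} (hx : |x| ≤ a) (hy : |y| ≤ a) :
    (hub a x + hub a y) / 2 - hub a ((x + y) / 2) = (x - y) ^ 2 / (8 * a) := by
  have hz : |(x + y) / 2| ≤ a := by
    rw [abs_le] at *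
    constructor <;> linarith [hx.1, hx.2, hy.1, hy.2]
  unfold hub
  rw [if_pos hx, if_pos hy, if_pos hz]
  field_simp
  ring

theorem hub_le {a : ℝ} (ha : 0 < a) (t : ℝ) : hub a t ≤ |t| := by
  unfold hub
  have h0 : 0 ≤ |t| := abs_nonneg t
  by_cases h : |t| ≤ a
  · rw [if_pos h, ← sq_abs, div_le_iff₀ (by positivity)]
    nlinarith
  · rw [if_neg h]; linarith

theorem hub_nonneg {a : ℝ} (ha : 0 < a) (t : ℝ) : 0 ≤ hub a t := by
  have := hub_ge ha 0 t (by simp)
  simpa using this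

/-- the potential -/
noncomputable def pot (D : ℝ) (N : ℕ) (t : ℝ) : ℝ := ∑ l ∈ range N, hub (D / 2 ^ l) t

theorem pot_le {D : ℝ} (hD : 0 < D) (N : ℕ) (t : ℝ) : pot D N t ≤ N * |t| := by
  unfold pot
  calc ∑ l ∈ range N, hub (D / 2 ^ l) t ≤ ∑ l ∈ range N, |t| :=
        sum_le_sum fun l _ => hub_le (by positivity) t
    _ = N * |t| := by rw [sum_const, card_range, nsmul_eq_mul]

theorem pot_nonneg {D : ℝ} (hD : 0 < D) (N : ℕ) (t : ℝ) : 0 ≤ pot D N t :=
  sum_nonneg fun l _ => hub_nonneg (by positivity) t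

theorem pot_diff (D : ℝ) (N : ℕ) (x y : ℝ) :
    (pot D N x + pot D N y) / 2 - pot D N ((x + y) / 2) =
      ∑ l ∈ range N, ((hub (D / 2 ^ l) x + hub (D / 2 ^ l) y) / 2 -
        hub (D / 2 ^ l) ((x + y) / 2)) := by
  unfold pot
  rw [sum_sub_distrib, ← sum_div, sum_add_distrib]

theorem pot_mid {D : ℝ} (hD : 0 < D) (N : ℕ) (x y : ℝ) :
    0 ≤ (pot D N x + pot D N y) / 2 - pot D N ((x + y) / 2) := by
  rw [pot_diff]
  exact sum_nonneg fun l _ => by
    have := hub_mid (show 0 < D / 2 ^ l by positivity) x y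
    linarith

theorem pot_gap {D : ℝ} (hD : 0 < D) {N : ℕ} (hN : 1 ≤ N) {x y : ℝ} (hx : |x| ≤ D)
    (hy : |y| ≤ D) :
    (x - y) ^ 2 / (8 * (2 * (|x| + |y|) + D / 2 ^ (N - 1))) ≤
      (pot D N x + pot D N y) / 2 - pot D N ((x + y) / 2) := by
  set m : ℝ := max |x| |y| with hm
  have hmD : m ≤ D := max_le hx hy
  have hm2 : m ≤ |x| + |y| := max_le (by linarith [abs_nonneg y]) (by linarith [abs_nonneg x])
  have hm0 : 0 ≤ m := le_max_of_le_left (abs_nonneg x)
  have hex : ∃ l < N, m ≤ D / 2 ^ l ∧ D / 2 ^ l ≤ 2 * m + D / 2 ^ (N - 1) := by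
    by_cases h : m ≤ D / 2 ^ (N - 1)
    · exact ⟨N - 1, by omega, h, by linarith⟩
    · push Not at h
      classical
      have hP : ∃ l : ℕ, D / 2 ^ l < m := ⟨N - 1, h⟩
      have h1 : D / 2 ^ (Nat.find hP) < m := Nat.find_spec hP
      have h2 : Nat.find hP ≤ N - 1 := Nat.find_min' hP h
      have h3 : Nat.find hP ≠ 0 := by
        intro h0
        rw [h0, pow_zero, div_one] at h1
        linarith
      obtain ⟨l, hl⟩ : ∃ l, Nat.find hP = l + 1 := ⟨Nat.find hP - 1, by omega⟩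
      have h4 : ¬ D / 2 ^ l < m := Nat.find_min hP (by omega)
      push Not at h4
      rw [hl] at h1
      have h5 : D / 2 ^ (l + 1) = D / 2 ^ l / 2 := by rw [pow_succ]; field_simp
      have h6 : 0 < D / 2 ^ (N - 1) := by positivity
      exact ⟨l, by omega, h4, by linarith⟩
  obtain ⟨l, hlN, h1, h2⟩ := hex
  have ha : 0 < D / 2 ^ l := by positivity
  rw [pot_diff]
  have h3 := hub_gap ha (show |x| ≤ D / 2 ^ l from (le_max_left _ _).trans h1)
    (show |y| ≤ D / 2 ^ l from (le_max_right _ _).trans h1)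
  refine le_trans ?_ (single_le_sum (f := fun l => (hub (D / 2 ^ l) x + hub (D / 2 ^ l) y) / 2 -
    hub (D / 2 ^ l) ((x + y) / 2)) (fun i _ => ?_) (mem_range.2 hlN))
  · rw [h3]
    apply div_le_div_of_nonneg_left (sq_nonneg _) (by positivity)
    have : 0 ≤ D / 2 ^ (N - 1) := by positivity
    linarith
  · have := hub_mid (show 0 < D / 2 ^ i by positivity) x y
    linarith

variable {d : ℕ}

/-- the potential of a vector -/
noncomputable def vp (D : ℝ) (N : ℕ) (w : Fin d → ℝ) : ℝ := ∑ i, pot D N (w i)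

theorem vp_nonneg {D : ℝ} (hD : 0 < D) (N : ℕ) (w : Fin d → ℝ) : 0 ≤ vp D N w :=
  sum_nonneg fun i _ => pot_nonneg hD N _

theorem vp_le {D : ℝ} (hD : 0 < D) (N : ℕ) (w : Fin d → ℝ) : vp D N w ≤ N * ∑ i, |w i| := by
  unfold vp
  rw [mul_sum]
  exact sum_le_sum fun i _ => pot_le hD N _

theorem vp_diff (D : ℝ) (N : ℕ) (x y : Fin d → ℝ) :
    (vp D N x + vp D N y) / 2 - vp D N (fun i => (x i + y i) / 2) =
      ∑ i, ((pot D N (x i) + pot D N (y i)) / 2 - pot D N ((x i + y i) / 2)) := by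
  unfold vp
  rw [sum_sub_distrib, ← sum_div, sum_add_distrib]

theorem vp_mid {D : ℝ} (hD : 0 < D) (N : ℕ) (x y : Fin d → ℝ) :
    0 ≤ (vp D N x + vp D N y) / 2 - vp D N (fun i => (x i + y i) / 2) := by
  rw [vp_diff]
  exact sum_nonneg fun i _ => pot_mid hD N _ _

theorem vp_gap {D : ℝ} (hD : 1 ≤ D) {N : ℕ} (hN : 1 ≤ N) (hNd : D * d ≤ 2 ^ (N - 1))
    {x y : Fin d → ℝ} (hx : ∑ i, |x i| ≤ D) (hy : ∑ i, |y i| ≤ D)
    (hxy : 2 ≤ ∑ i, |x i - y i|) :
    1 / (10 * D) ≤ (vp D N x + vp D N y) / 2 - vp D N (fun i => (x i + y i) / 2) := by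
  have hD0 : 0 < D := by linarith
  set δ : ℝ := D / 2 ^ (N - 1) with hδ
  have hδ0 : 0 < δ := by positivity
  have hxi : ∀ i, |x i| ≤ D := fun i =>
    (single_le_sum (f := fun i => |x i|) (fun i _ => abs_nonneg _) (mem_univ i)).trans hx
  have hyi : ∀ i, |y i| ≤ D := fun i =>
    (single_le_sum (f := fun i => |y i|) (fun i _ => abs_nonneg _) (mem_univ i)).trans hy
  set b : Fin d → ℝ := fun i => 8 * (2 * (|x i| + |y i|) + δ) with hb
  have hb0 : ∀ i, 0 < b i := fun i => by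
    rw [hb]; simp only; positivity
  have hsum : ∑ i, b i ≤ 40 * D := by
    have h1 : ∑ i, b i = 16 * (∑ i, |x i| + ∑ i, |y i|) + 8 * (d * δ) := by
      rw [hb]
      simp only [mul_add, sum_add_distrib, ← mul_sum, sum_const, card_univ, Fintype.card_fin,
        nsmul_eq_mul]
      ring
    have h2 : d * δ ≤ 1 := by
      rw [hδ, ← mul_div_assoc, div_le_one (by positivity)]
      linarith
    rw [h1]
    linarith
  have hcs := sum_sq_le_sum_mul_sum_of_sq_le_mul (univ : Finset (Fin d))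
    (r := fun i => |x i - y i|) (f := fun i => (x i - y i) ^ 2 / b i) (g := b)
    (fun i _ => div_nonneg (sq_nonneg _) (hb0 i).le) (fun i _ => (hb0 i).le)
    (fun i _ => by
      rw [sq_abs, div_mul_cancel₀ _ (hb0 i).ne'])
  set Sg : ℝ := ∑ i, (x i - y i) ^ 2 / b i with hSg
  have hSg0 : 0 ≤ Sg := sum_nonneg fun i _ => div_nonneg (sq_nonneg _) (hb0 i).le
  have h4 : (4 : ℝ) ≤ (∑ i, |x i - y i|) ^ 2 := by nlinarith
  have h5 : 4 ≤ Sg * (40 * D) := by
    have : Sg * ∑ i, b i ≤ Sg * (40 * D) := mul_le_mul_of_nonneg_left hsum hSg0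
    linarith
  have h6 : 1 / (10 * D) ≤ Sg := by
    rw [div_le_iff₀ (by positivity)]
    linarith
  refine h6.trans ?_
  rw [vp_diff]
  exact sum_le_sum fun i _ => pot_gap hD0 hN (hxi i) (hyi i)

end Pool.Agent.Lib.MP_716709_gt.Light93
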