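import Pool.Agent.Lib.MP_716709_gt.Light93.Main
import Pool.Agent.Lib.MP_716709_gt.Light93.Potential

/-!
The diamond graphs in `ℓ₁`: a light function and the lower bound for the dimension.
-/

set_option autoImplicit false
set_option linter.unusedSectionVars false
set_option linter.unusedVariables false

namespace Pool.Agent.Lib.MP_716709_gt.Light93

open Finset

/-- the leaves of the binary tree of depth `k` -/
def Idx : ℕ → Type
  | 0 => Unit
  | k + 1 => Idx k ⊕ Idx k

instance instIdx : (k : ℕ) → Fintype (Idx k)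
  | 0 => inferInstanceAs (Fintype Unit)
  | k + 1 => by
    letI := instIdx k
    exact inferInstanceAs (Fintype (Idx k ⊕ Idx k))

/-- the normalised `ℓ₁` distance -/
noncomputable def dd (k : ℕ) (x y : Idx k → ℝ) : ℝ := (∑ e, |x e - y e|) / 2 ^ k

/-- the normalised sum of the entries -/
noncomputable def hh (k : ℕ) (x : Idx k → ℝ) : ℝ := (∑ e, x e) / 2 ^ k

/-- juxtaposition of two halves -/
def jn {k : ℕ} (x y : Idx k → ℝ) : Idx (k + 1) → ℝ := Sum.elim x y

/-- a constant vector -/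
def cst (k : ℕ) (c : ℝ) : Idx k → ℝ := fun _ => c

theorem cst_succ (k : ℕ) (c : ℝ) : cst (k + 1) c = jn (cst k c) (cst k c) := by
  funext e
  cases e <;> rfl

theorem dd_jn {k : ℕ} (x y x' y' : Idx k → ℝ) :
    dd (k + 1) (jn x y) (jn x' y') = (dd k x x' + dd k y y') / 2 := by
  have h : (∑ e : Idx (k + 1), |jn x y e - jn x' y' e|) =
      (∑ e, |x e - x' e|) + ∑ e, |y e - y' e| :=
    Fintype.sum_sum_type (fun e : Idx k ⊕ Idx k => |jn x y e - jn x' y' e|)
  unfold dd
  rw [h, pow_succ]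
  field_simp

theorem hh_jn {k : ℕ} (x y : Idx k → ℝ) : hh (k + 1) (jn x y) = (hh k x + hh k y) / 2 := by
  have h : (∑ e : Idx (k + 1), jn x y e) = (∑ e, x e) + ∑ e, y e :=
    Fintype.sum_sum_type (fun e : Idx k ⊕ Idx k => jn x y e)
  unfold hh
  rw [h, pow_succ]
  field_simp

theorem dd_cst (k : ℕ) (c c' : ℝ) : dd k (cst k c) (cst k c') = |c - c'| := by
  induction k with
  | zero =>
    unfold dd cst
    have : (∑ _e : Idx 0, |c - c'|) = |c - c'| := Fintype.sum_unique (fun _ : Unit => |c - c'|)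
    rw [this, pow_zero, div_one]
  | succ k ih => rw [cst_succ, cst_succ, dd_jn, ih]; ring

theorem hh_cst (k : ℕ) (c : ℝ) : hh k (cst k c) = c := by
  induction k with
  | zero =>
    unfold hh cst
    have : (∑ _e : Idx 0, c) = c := Fintype.sum_unique (fun _ : Unit => c)
    rw [this, pow_zero, div_one]
  | succ k ih => rw [cst_succ, hh_jn, ih]; ring

theorem dd_self (k : ℕ) (x : Idx k → ℝ) : dd k x x = 0 := by
  unfold dd; simp

theorem dd_comm (k : ℕ) (x y : Idx k → ℝ) : dd k x y = dd k y x := by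
  unfold dd
  congr 1
  exact sum_congr rfl fun e _ => abs_sub_comm _ _

theorem dd_tri (k : ℕ) (x y z : Idx k → ℝ) : dd k x z ≤ dd k x y + dd k y z := by
  unfold dd
  rw [← add_div, ← sum_add_distrib]
  apply div_le_div_of_nonneg_right _ (by positivity)
  exact sum_le_sum fun e _ => abs_sub_le _ _ _

theorem dd_nonneg (k : ℕ) (x y : Idx k → ℝ) : 0 ≤ dd k x y :=
  div_nonneg (sum_nonneg fun _ _ => abs_nonneg _) (by positivity)

open Classical in
/-- the vertices of the diamond graph of depth `k` -/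
noncomputable def Dia : (k : ℕ) → Finset (Idx k → ℝ)
  | 0 => {cst 0 0, cst 0 1}
  | k + 1 =>
    (Dia k).image (fun u => jn (cst k 0) u) ∪ (Dia k).image (fun u => jn u (cst k 0)) ∪
      ((Dia k).image (fun u => jn (cst k 1) u) ∪ (Dia k).image (fun u => jn u (cst k 1)))

theorem mem_Dia_zero {x : Idx 0 → ℝ} : x ∈ Dia 0 ↔ x = cst 0 0 ∨ x = cst 0 1 := by
  classical
  unfold Dia; simp

theorem mem_Dia_succ {k : ℕ} {x : Idx (k + 1) → ℝ} : x ∈ Dia (k + 1) ↔
    ∃ u ∈ Dia k, x = jn (cst k 0) u ∨ x = jn u (cst k 0) ∨ x = jn (cst k 1) u ∨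
      x = jn u (cst k 1) := by
  classical
  rw [Dia]
  simp only [mem_union, mem_image]
  constructor
  · rintro ((⟨u, hu, rfl⟩ | ⟨u, hu, rfl⟩) | (⟨u, hu, rfl⟩ | ⟨u, hu, rfl⟩))
    · exact ⟨u, hu, Or.inl rfl⟩
    · exact ⟨u, hu, Or.inr (Or.inl rfl)⟩
    · exact ⟨u, hu, Or.inr (Or.inr (Or.inl rfl))⟩
    · exact ⟨u, hu, Or.inr (Or.inr (Or.inr rfl))⟩
  · rintro ⟨u, hu, rfl | rfl | rfl | rfl⟩
    · exact Or.inl (Or.inl ⟨u, hu, rfl⟩)
    · exact Or.inl (Or.inr ⟨u, hu, rfl⟩)
    · exact Or.inr (Or.inl ⟨u, hu, rfl⟩)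
    · exact Or.inr (Or.inr ⟨u, hu, rfl⟩)

theorem card_Dia (k : ℕ) : (Dia k).card ≤ 2 * 4 ^ k := by
  classical
  induction k with
  | zero =>
    unfold Dia
    exact card_le_two
  | succ k ih =>
    rw [Dia]
    have h1 : ∀ f : (Idx k → ℝ) → (Idx (k + 1) → ℝ), ((Dia k).image f).card ≤ 2 * 4 ^ k :=
      fun f => card_image_le.trans ih
    refine (card_union_le _ _).trans ?_
    have h2 := card_union_le ((Dia k).image (fun u => jn (cst k 0) u))
      ((Dia k).image (fun u => jn u (cst k 0)))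
    have h3 := card_union_le ((Dia k).image (fun u => jn (cst k 1) u))
      ((Dia k).image (fun u => jn u (cst k 1)))
    have h4 := h1 (fun u => jn (cst k 0) u)
    have h5 := h1 (fun u => jn u (cst k 0))
    have h6 := h1 (fun u => jn (cst k 1) u)
    have h7 := h1 (fun u => jn u (cst k 1))
    rw [pow_succ]
    omega

theorem cst_mem (k : ℕ) : cst k 0 ∈ Dia k ∧ cst k 1 ∈ Dia k := by
  induction k with
  | zero => exact ⟨mem_Dia_zero.2 (Or.inl rfl), mem_Dia_zero.2 (Or.inr rfl)⟩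
  | succ k ih =>
    refine ⟨mem_Dia_succ.2 ⟨_, ih.1, Or.inl (cst_succ k 0)⟩,
      mem_Dia_succ.2 ⟨_, ih.2, Or.inr (Or.inr (Or.inl (cst_succ k 1)))⟩⟩

/-- the entries lie in the unit interval -/
theorem entry (k : ℕ) : ∀ x ∈ Dia k, ∀ e, 0 ≤ x e ∧ x e ≤ 1 := by
  induction k with
  | zero =>
    intro x hx e
    rcases mem_Dia_zero.1 hx with rfl | rfl <;> unfold cst <;> norm_num
  | succ k ih =>
    intro x hx e
    obtain ⟨u, hu, h⟩ := mem_Dia_succ.1 hx
    have hu' := ih u hu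
    rcases h with rfl | rfl | rfl | rfl <;> cases e <;> rename_i e
    · exact ⟨le_rfl, zero_le_one⟩
    · exact hu' e
    · exact hu' e
    · exact ⟨le_rfl, zero_le_one⟩
    · exact ⟨zero_le_one, le_rfl⟩
    · exact hu' e
    · exact hu' e
    · exact ⟨zero_le_one, le_rfl⟩

theorem card_Idx (k : ℕ) : (Fintype.card (Idx k) : ℝ) = 2 ^ k := by
  induction k with
  | zero =>
    have : Fintype.card (Idx 0) = 1 := Fintype.card_unit
    rw [this]; norm_num
  | succ k ih =>
    have : Fintype.card (Idx (k + 1)) = Fintype.card (Idx k) + Fintype.card (Idx k) :=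
      Fintype.card_sum
    rw [this]
    push_cast
    rw [ih]; ring

theorem hh_bounds {k : ℕ} {x : Idx k → ℝ} (hx : x ∈ Dia k) : 0 ≤ hh k x ∧ hh k x ≤ 1 := by
  have h := entry k x hx
  unfold hh
  constructor
  · exact div_nonneg (sum_nonneg fun e _ => (h e).1) (by positivity)
  · rw [div_le_one (by positivity), ← card_Idx]
    calc ∑ e, x e ≤ ∑ _e : Idx k, (1 : ℝ) := sum_le_sum fun e _ => (h e).2
      _ = Fintype.card (Idx k) := by simp

theorem dd_zero {k : ℕ} {x : Idx k → ℝ} (hx : x ∈ Dia k) : dd k x (cst k 0) = hh k x := by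
  have h := entry k x hx
  unfold dd hh cst
  congr 1
  exact sum_congr rfl fun e _ => by rw [sub_zero, abs_of_nonneg (h e).1]

theorem dd_one {k : ℕ} {x : Idx k → ℝ} (hx : x ∈ Dia k) : dd k x (cst k 1) = 1 - hh k x := by
  have h := entry k x hx
  have h1 : ∑ e, |x e - cst k 1 e| = 2 ^ k - ∑ e, x e := by
    have h2 : ∀ e, |x e - cst k 1 e| = 1 - x e := fun e => by
      unfold cst
      rw [abs_sub_comm, abs_of_nonneg (by linarith [(h e).2])]
    simp only [h2, sum_sub_distrib]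
    congr 1
    rw [← card_Idx]; simp
  unfold dd hh
  rw [h1, sub_div, div_self (by positivity)]

theorem dd_le_one {k : ℕ} {x y : Idx k → ℝ} (hx : x ∈ Dia k) (hy : y ∈ Dia k) :
    dd k x y ≤ 1 := by
  have h := entry k x hx
  have h' := entry k y hy
  unfold dd
  rw [div_le_one (by positivity), ← card_Idx]
  calc ∑ e, |x e - y e| ≤ ∑ _e : Idx k, (1 : ℝ) := sum_le_sum fun e _ => by
        rw [abs_le]
        constructor <;> linarith [(h e).1, (h e).2, (h' e).1, (h' e).2]
    _ = Fintype.card (Idx k) := by simp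

/-- the lower bound for the potential -/
theorem core {d : ℕ} {D : ℝ} {N : ℕ} (hD : 1 ≤ D) (hN1 : 1 ≤ N)
    (hN : D * d ≤ 2 ^ (N - 1)) (k : ℕ) :
    ∀ F : (Idx k → ℝ) → Fin d → ℝ,
    (∀ x ∈ Dia k, ∀ y ∈ Dia k, dd k x y ≤ ∑ i, |F x i - F y i| ∧
      ∑ i, |F x i - F y i| ≤ D * dd k x y) →
    vp D N (fun i => F (cst k 1) i - F (cst k 0) i) + k * (1 / (20 * D)) ≤ N * D := by
  have hD0 : 0 < D := by linarith
  induction k with
  | zero =>
    intro F hF
    have h1 := (hF _ (cst_mem 0).2 _ (cst_mem 0).1).2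
    rw [dd_cst] at h1
    have h2 := vp_le hD0 N (fun i => F (cst 0 1) i - F (cst 0 0) i)
    have h3 : (N : ℝ) * ∑ i, |F (cst 0 1) i - F (cst 0 0) i| ≤ N * D := by
      apply mul_le_mul_of_nonneg_left _ (Nat.cast_nonneg N)
      calc ∑ i, |F (cst 0 1) i - F (cst 0 0) i| ≤ D * |1 - 0| := h1
        _ = D := by norm_num
    push_cast
    linarith
  | succ k ih =>
    intro F hF
    set m00 : Idx (k + 1) → ℝ := jn (cst k 0) (cst k 0) with hm00
    set m01 : Idx (k + 1) → ℝ := jn (cst k 0) (cst k 1) with hm01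
    set m10 : Idx (k + 1) → ℝ := jn (cst k 1) (cst k 0) with hm10
    set m11 : Idx (k + 1) → ℝ := jn (cst k 1) (cst k 1) with hm11
    have e0 : cst (k + 1) 0 = m00 := cst_succ k 0
    have e1 : cst (k + 1) 1 = m11 := cst_succ k 1
    -- a general copy
    have copy : ∀ ι : (Idx k → ℝ) → (Idx (k + 1) → ℝ), (∀ u ∈ Dia k, ι u ∈ Dia (k + 1)) →
        (∀ u v, dd (k + 1) (ι u) (ι v) = dd k u v / 2) →
        vp D N (fun i => 2 * F (ι (cst k 1)) i - 2 * F (ι (cst k 0)) i) +
          k * (1 / (20 * D)) ≤ N * D ∧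
        ∑ i, |2 * F (ι (cst k 1)) i - 2 * F (ι (cst k 0)) i| ≤ D := by
      intro ι hι hdd
      have hG : ∀ x ∈ Dia k, ∀ y ∈ Dia k,
          dd k x y ≤ ∑ i, |2 * F (ι x) i - 2 * F (ι y) i| ∧
          ∑ i, |2 * F (ι x) i - 2 * F (ι y) i| ≤ D * dd k x y := by
        intro x hx y hy
        have h1 := hF _ (hι x hx) _ (hι y hy)
        rw [hdd] at h1
        have h2 : ∑ i, |2 * F (ι x) i - 2 * F (ι y) i| = 2 * ∑ i, |F (ι x) i - F (ι y) i| := by
          rw [mul_sum]
          exact sum_congr rfl fun i _ => by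
            rw [← mul_sub, abs_mul, abs_of_pos (by norm_num : (0 : ℝ) < 2)]
        rw [h2]
        constructor <;> linarith [h1.1, h1.2]
      refine ⟨ih (fun u i => 2 * F (ι u) i) hG, ?_⟩
      have h3 := (hG _ (cst_mem k).2 _ (cst_mem k).1).2
      rw [dd_cst] at h3
      calc _ ≤ D * |1 - 0| := h3
        _ = D := by norm_num
    obtain ⟨pA, nA⟩ := copy (fun u => jn (cst k 0) u)
      (fun u hu => mem_Dia_succ.2 ⟨u, hu, Or.inl rfl⟩)
      (fun u v => by rw [dd_jn, dd_self, zero_add])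
    obtain ⟨pB, nB⟩ := copy (fun u => jn u (cst k 0))
      (fun u hu => mem_Dia_succ.2 ⟨u, hu, Or.inr (Or.inl rfl)⟩)
      (fun u v => by rw [dd_jn, dd_self, add_zero])
    obtain ⟨pC, nC⟩ := copy (fun u => jn (cst k 1) u)
      (fun u hu => mem_Dia_succ.2 ⟨u, hu, Or.inr (Or.inr (Or.inl rfl))⟩)
      (fun u v => by rw [dd_jn, dd_self, zero_add])
    obtain ⟨pD, nD⟩ := copy (fun u => jn u (cst k 1))
      (fun u hu => mem_Dia_succ.2 ⟨u, hu, Or.inr (Or.inr (Or.inr rfl))⟩)
      (fun u v => by rw [dd_jn, dd_self, add_zero])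
    simp only [← hm00, ← hm01, ← hm10, ← hm11] at pA pB pC pD nA nB nC nD
    set wA : Fin d → ℝ := fun i => 2 * F m01 i - 2 * F m00 i with hwA
    set wB : Fin d → ℝ := fun i => 2 * F m10 i - 2 * F m00 i with hwB
    set wC : Fin d → ℝ := fun i => 2 * F m11 i - 2 * F m10 i with hwC
    set wD : Fin d → ℝ := fun i => 2 * F m11 i - 2 * F m01 i with hwD
    have eAD : (fun i => (wA i + wD i) / 2) = fun i => F m11 i - F m00 i := by
      funext i; rw [hwA, hwD]; ring
    have eBC : (fun i => (wB i + wC i) / 2) = fun i => F m11 i - F m00 i := by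
      funext i; rw [hwB, hwC]; ring
    have hmid : dd (k + 1) m01 m10 = 1 := by
      rw [hm01, hm10, dd_jn, dd_cst, dd_cst]; norm_num
    have h01 : m01 ∈ Dia (k + 1) := mem_Dia_succ.2 ⟨_, (cst_mem k).2, Or.inl rfl⟩
    have h10 : m10 ∈ Dia (k + 1) := mem_Dia_succ.2 ⟨_, (cst_mem k).2, Or.inr (Or.inl rfl)⟩
    have hsep := (hF _ h01 _ h10).1
    rw [hmid] at hsep
    have hbig : 2 ≤ ∑ i, |wA i - wB i| := by
      have : ∑ i, |wA i - wB i| = 2 * ∑ i, |F m01 i - F m10 i| := by
        rw [mul_sum]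
        exact sum_congr rfl fun i _ => by
          rw [hwA, hwB]
          simp only
          rw [show 2 * F m01 i - 2 * F m00 i - (2 * F m10 i - 2 * F m00 i) =
            2 * (F m01 i - F m10 i) by ring, abs_mul, abs_of_pos (by norm_num : (0 : ℝ) < 2)]
      linarith
    have hsplit : ∑ i, |wA i - wB i| ≤ (∑ i, |wA i - wD i|) / 2 + (∑ i, |wB i - wC i|) / 2 := by
      rw [← add_div, ← sum_add_distrib, sum_div]
      refine sum_le_sum fun i _ => ?_
      have h1 : wA i - wB i = (wA i - wD i) / 2 - (wB i - wC i) / 2 := by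
        rw [hwA, hwB, hwC, hwD]; ring
      rw [h1]
      have h2 := abs_sub ((wA i - wD i) / 2) ((wB i - wC i) / 2)
      rw [abs_div, abs_div, abs_of_pos (by norm_num : (0 : ℝ) < 2)] at h2
      linarith
    rw [e0, e1]
    have gap : 1 / (20 * D) ≤ (vp D N wA + vp D N wD + vp D N wB + vp D N wC) / 4 -
        vp D N (fun i => F m11 i - F m00 i) := by
      have c1 := vp_mid hD0 N wA wD
      have c2 := vp_mid hD0 N wB wC
      rw [eAD] at c1
      rw [eBC] at c2
      have h10D : 1 / (10 * D) = 2 * (1 / (20 * D)) := by field_simp; norm_num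
      rcases le_or_gt 2 (∑ i, |wA i - wD i|) with h | h
      · have g := vp_gap hD hN1 hN nA nD h
        rw [eAD] at g
        linarith
      · have h' : 2 ≤ ∑ i, |wB i - wC i| := by linarith
        have g := vp_gap hD hN1 hN nB nC h'
        rw [eBC] at g
        linarith
    push_cast
    linarith

end Pool.Agent.Lib.MP_716709_gt.Light93
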