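import Pool.Agent.Lib.MP_716709_gt.Light93.Diamond

/-!
The height is a light function on the diamond graphs; the two bounds for the class.
-/

set_option autoImplicit false
set_option linter.unusedSectionVars false
set_option linter.unusedVariables false

namespace Pool.Agent.Lib.MP_716709_gt.Light93

open Finset

/-- one step of a chain in a band -/
def StepD (k : ℕ) (t w : ℝ) (x y : Idx k → ℝ) : Prop :=
  x ∈ Dia k ∧ y ∈ Dia k ∧ (t ≤ hh k x ∧ hh k x ≤ t + w) ∧ (t ≤ hh k y ∧ hh k y ≤ t + w) ∧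
    dd k x y ≤ w

theorem chain_mem {k : ℕ} {t w : ℝ} {x y : Idx k → ℝ}
    (h : Relation.ReflTransGen (StepD k t w) x y) :
    x = y ∨ ((x ∈ Dia k ∧ t ≤ hh k x ∧ hh k x ≤ t + w) ∧
      (y ∈ Dia k ∧ t ≤ hh k y ∧ hh k y ≤ t + w)) := by
  induction h with
  | refl => exact Or.inl rfl
  | tail h1 h2 ih =>
    right
    rcases ih with rfl | ih
    · exact ⟨⟨h2.1, h2.2.2.1⟩, ⟨h2.2.1, h2.2.2.2.1⟩⟩
    · exact ⟨ih.1, ⟨h2.2.1, h2.2.2.2.1⟩⟩

theorem copy_chain {k : ℕ} {t w s : ℝ} (hw : 0 < w) (ι : (Idx k → ℝ) → (Idx (k + 1) → ℝ))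
    (hdd : ∀ u v, dd (k + 1) (ι u) (ι v) = dd k u v / 2)
    (hhh : ∀ u, hh (k + 1) (ι u) = hh k u / 2 + s)
    (stay : ∀ u ∈ Dia k, ∀ y, StepD (k + 1) t w (ι u) y → ∃ v ∈ Dia k, y = ι v)
    (ih : ∀ t w : ℝ, 0 < w → ∀ x y, Relation.ReflTransGen (StepD k t w) x y →
      dd k x y ≤ 8 * w)
    {u : Idx k → ℝ} (hu : u ∈ Dia k) {y : Idx (k + 1) → ℝ}
    (h : Relation.ReflTransGen (StepD (k + 1) t w) (ι u) y) :
    dd (k + 1) (ι u) y ≤ 8 * w := by
  have key : ∃ v ∈ Dia k, y = ι v ∧
      Relation.ReflTransGen (StepD k (2 * (t - s)) (2 * w)) u v := by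
    induction h with
    | refl => exact ⟨u, hu, rfl, Relation.ReflTransGen.refl⟩
    | tail h1 h2 ih' =>
      obtain ⟨v, hv, rfl, hc⟩ := ih'
      obtain ⟨v', hv', rfl⟩ := stay v hv _ h2
      refine ⟨v', hv', rfl, hc.tail ⟨hv, hv', ?_, ?_, ?_⟩⟩
      · have h3 := h2.2.2.1
        rw [hhh] at h3
        constructor <;> linarith [h3.1, h3.2]
      · have h3 := h2.2.2.2.1
        rw [hhh] at h3
        constructor <;> linarith [h3.1, h3.2]
      · have h3 := h2.2.2.2.2
        rw [hdd] at h3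
        linarith
  obtain ⟨v, hv, rfl, hc⟩ := key
  have h4 := ih _ _ (by linarith) _ _ hc
  rw [hdd]
  linarith

theorem light_dia (k : ℕ) : ∀ t w : ℝ, 0 < w → ∀ x y,
    Relation.ReflTransGen (StepD k t w) x y → dd k x y ≤ 8 * w := by
  induction k with
  | zero =>
    intro t w hw x y h
    rcases chain_mem h with rfl | ⟨⟨hx, bx⟩, ⟨hy, by'⟩⟩
    · rw [dd_self]; linarith
    · rcases mem_Dia_zero.1 hx with rfl | rfl <;> rcases mem_Dia_zero.1 hy with rfl | rfl
      · rw [dd_self]; linarith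
      · rw [hh_cst] at bx by'
        rw [dd_cst]
        norm_num
        linarith [bx.1, by'.2]
      · rw [hh_cst] at bx by'
        rw [dd_cst]
        norm_num
        linarith [by'.1, bx.2]
      · rw [dd_self]; linarith
  | succ k ih =>
    intro t w hw x y h
    rcases chain_mem h with rfl | ⟨⟨hx, bx⟩, ⟨hy, by'⟩⟩
    · rw [dd_self]; linarith
    by_cases h8 : 1 / 8 ≤ w
    · linarith [dd_le_one hx hy]
    push Not at h8
    by_cases hb0 : t ≤ w
    · have h1 := dd_tri (k + 1) x (cst (k + 1) 0) y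
      rw [dd_zero hx, dd_comm _ (cst (k + 1) 0) y, dd_zero hy] at h1
      linarith [bx.2, by'.2]
    by_cases hb1 : 1 - w ≤ t + w
    · have h1 := dd_tri (k + 1) x (cst (k + 1) 1) y
      rw [dd_one hx, dd_comm _ (cst (k + 1) 1) y, dd_one hy] at h1
      linarith [bx.1, by'.1]
    push Not at hb0 hb1
    by_cases hmid : t ≤ 1 / 2 + w ∧ 1 / 2 - w ≤ t + w
    · set m01 : Idx (k + 1) → ℝ := jn (cst k 0) (cst k 1) with hm01
      set m10 : Idx (k + 1) → ℝ := jn (cst k 1) (cst k 0) with hm10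
      have hnear : ∀ z ∈ Dia (k + 1), t ≤ hh (k + 1) z → hh (k + 1) z ≤ t + w →
          dd (k + 1) z m01 ≤ 2 * w ∨ dd (k + 1) z m10 ≤ 2 * w := by
        intro z hz z1 z2
        obtain ⟨u, hu, h'⟩ := mem_Dia_succ.1 hz
        rcases h' with rfl | rfl | rfl | rfl
        · left
          rw [hh_jn, hh_cst] at z1 z2
          rw [hm01, dd_jn, dd_self, dd_one hu]
          linarith [hmid.2]
        · right
          rw [hh_jn, hh_cst] at z1 z2
          rw [hm10, dd_jn, dd_self, dd_one hu]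
          linarith [hmid.2]
        · right
          rw [hh_jn, hh_cst] at z1 z2
          rw [hm10, dd_jn, dd_self, dd_zero hu]
          linarith [hmid.1]
        · left
          rw [hh_jn, hh_cst] at z1 z2
          rw [hm01, dd_jn, dd_self, dd_zero hu]
          linarith [hmid.1]
      have hfar : dd (k + 1) m01 m10 = 1 := by
        rw [hm01, hm10, dd_jn, dd_cst, dd_cst]; norm_num
      have hinv : ∀ m m' : Idx (k + 1) → ℝ, dd (k + 1) m m' = 1 →
          (∀ z ∈ Dia (k + 1), t ≤ hh (k + 1) z → hh (k + 1) z ≤ t + w →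
            dd (k + 1) z m ≤ 2 * w ∨ dd (k + 1) z m' ≤ 2 * w) →
          dd (k + 1) x m ≤ 2 * w → ∀ z, Relation.ReflTransGen (StepD (k + 1) t w) x z →
          dd (k + 1) z m ≤ 2 * w := by
        intro m m' hmm hn hxm z hz
        induction hz with
        | refl => exact hxm
        | @tail b c h1 h2 ih' =>
          rcases hn c h2.2.1 h2.2.2.2.1.1 h2.2.2.2.1.2 with h3 | h3
          · exact h3
          · exfalso
            have h4 := dd_tri (k + 1) m b m'
            have h5 := dd_tri (k + 1) b c m'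
            rw [hmm, dd_comm _ m b] at h4
            linarith [h2.2.2.2.2]
      rcases hnear x hx bx.1 bx.2 with hxm | hxm
      · have h1 := hinv m01 m10 hfar hnear hxm y h
        have h2 := dd_tri (k + 1) x m01 y
        rw [dd_comm _ m01 y] at h2
        linarith
      · have h1 := hinv m10 m01 (by rw [dd_comm]; exact hfar)
          (fun z hz z1 z2 => (hnear z hz z1 z2).symm) hxm y h
        have h2 := dd_tri (k + 1) x m10 y
        rw [dd_comm _ m10 y] at h2
        linarith
    · have hlh : t + w < 1 / 2 - w ∨ 1 / 2 + w < t := by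
        by_contra hcon
        push Not at hcon
        exact hmid ⟨hcon.2, hcon.1⟩
      obtain ⟨u, hu, h'⟩ := mem_Dia_succ.1 hx
      rcases hlh with hlo | hhi
      · rcases h' with rfl | rfl | rfl | rfl
        · refine copy_chain (s := 0) hw (fun u => jn (cst k 0) u)
            (fun u v => by rw [dd_jn, dd_self, zero_add])
            (fun u => by rw [hh_jn, hh_cst]; ring) ?_ ih hu h
          intro u hu y hs
          obtain ⟨_, hy, b1, b2, b3⟩ := hs
          obtain ⟨v, hv, h'⟩ := mem_Dia_succ.1 hy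
          have hvb := hh_bounds hv
          rcases h' with rfl | rfl | rfl | rfl
          · exact ⟨v, hv, rfl⟩
          · exfalso
            simp only [hh_jn, hh_cst, dd_jn] at b1 b2 b3
            rw [dd_comm _ (cst k 0) v, dd_zero hv, dd_zero hu] at b3
            linarith [b1.1, b2.1]
          · exfalso
            simp only [hh_jn, hh_cst] at b2
            linarith [b2.2, hvb.1]
          · exfalso
            simp only [hh_jn, hh_cst] at b2
            linarith [b2.2, hvb.1]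
        · refine copy_chain (s := 0) hw (fun u => jn u (cst k 0))
            (fun u v => by rw [dd_jn, dd_self, add_zero])
            (fun u => by rw [hh_jn, hh_cst]; ring) ?_ ih hu h
          intro u hu y hs
          obtain ⟨_, hy, b1, b2, b3⟩ := hs
          obtain ⟨v, hv, h'⟩ := mem_Dia_succ.1 hy
          have hvb := hh_bounds hv
          rcases h' with rfl | rfl | rfl | rfl
          · exfalso
            simp only [hh_jn, hh_cst, dd_jn] at b1 b2 b3
            rw [dd_comm _ (cst k 0) v, dd_zero hv, dd_zero hu] at b3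
            linarith [b1.1, b2.1]
          · exact ⟨v, hv, rfl⟩
          · exfalso
            simp only [hh_jn, hh_cst] at b2
            linarith [b2.2, hvb.1]
          · exfalso
            simp only [hh_jn, hh_cst] at b2
            linarith [b2.2, hvb.1]
        · exfalso
          rw [hh_jn, hh_cst] at bx
          linarith [bx.2, (hh_bounds hu).1]
        · exfalso
          rw [hh_jn, hh_cst] at bx
          linarith [bx.2, (hh_bounds hu).1]
      · rcases h' with rfl | rfl | rfl | rfl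
        · exfalso
          rw [hh_jn, hh_cst] at bx
          linarith [bx.1, (hh_bounds hu).2]
        · exfalso
          rw [hh_jn, hh_cst] at bx
          linarith [bx.1, (hh_bounds hu).2]
        · refine copy_chain (s := 1 / 2) hw (fun u => jn (cst k 1) u)
            (fun u v => by rw [dd_jn, dd_self, zero_add])
            (fun u => by rw [hh_jn, hh_cst]; ring) ?_ ih hu h
          intro u hu y hs
          obtain ⟨_, hy, b1, b2, b3⟩ := hs
          obtain ⟨v, hv, h'⟩ := mem_Dia_succ.1 hy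
          have hvb := hh_bounds hv
          rcases h' with rfl | rfl | rfl | rfl
          · exfalso
            simp only [hh_jn, hh_cst] at b2
            linarith [b2.1, hvb.2]
          · exfalso
            simp only [hh_jn, hh_cst] at b2
            linarith [b2.1, hvb.2]
          · exact ⟨v, hv, rfl⟩
          · exfalso
            simp only [hh_jn, hh_cst, dd_jn] at b1 b2 b3
            rw [dd_comm _ (cst k 1) v, dd_one hv, dd_one hu] at b3
            linarith [b1.2, b2.2]
        · refine copy_chain (s := 1 / 2) hw (fun u => jn u (cst k 1))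
            (fun u v => by rw [dd_jn, dd_self, add_zero])
            (fun u => by rw [hh_jn, hh_cst]; ring) ?_ ih hu h
          intro u hu y hs
          obtain ⟨_, hy, b1, b2, b3⟩ := hs
          obtain ⟨v, hv, h'⟩ := mem_Dia_succ.1 hy
          have hvb := hh_bounds hv
          rcases h' with rfl | rfl | rfl | rfl
          · exfalso
            simp only [hh_jn, hh_cst] at b2
            linarith [b2.1, hvb.2]
          · exfalso
            simp only [hh_jn, hh_cst] at b2
            linarith [b2.1, hvb.2]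
          · exfalso
            simp only [hh_jn, hh_cst, dd_jn] at b1 b2 b3
            rw [dd_comm _ (cst k 1) v, dd_one hv, dd_one hu] at b3
            linarith [b1.2, b2.2]
          · exact ⟨v, hv, rfl⟩

/-- the vector as a point of `ℓ₁` -/
noncomputable def V (k : ℕ) (x : Idx k → ℝ) : L1 := vec (fun e => x e / 2 ^ k)

theorem dist_V (k : ℕ) (x y : Idx k → ℝ) : dist (V k x) (V k y) = dd k x y := by
  unfold V dd
  rw [dist_vec, sum_div]
  refine sum_congr rfl fun e _ => ?_
  rw [← sub_div, abs_div, abs_of_pos (show (0 : ℝ) < 2 ^ k by positivity)]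

open Classical in
/-- the diamond graph of depth `k` in `ℓ₁` -/
noncomputable def DM (k : ℕ) : Finset L1 := (Dia k).image (V k)

theorem card_DM (k : ℕ) : (DM k).card ≤ 2 * 4 ^ k := by
  classical
  exact card_image_le.trans (card_Dia k)

theorem light_DM (k : ℕ) : ∃ h : DM k → ℝ, IsLight 8 h := by
  classical
  refine ⟨fun m => dist (m : L1) (V k (cst k 0)), ?_, ?_⟩
  · intro a b
    exact abs_dist_sub_le (a : L1) (b : L1) (V k (cst k 0))
  · intro t w hw a b hab
    obtain ⟨x, hx, hxa⟩ := mem_image.1 a.2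
    have key : ∃ y ∈ Dia k, V k y = (b : L1) ∧
        Relation.ReflTransGen (StepD k t w) x y := by
      induction hab with
      | refl => exact ⟨x, hx, hxa, Relation.ReflTransGen.refl⟩
      | @tail b c h1 h2 ih =>
        obtain ⟨y, hy, hyb, hc⟩ := ih
        obtain ⟨z, hz, hzc⟩ := mem_image.1 c.2
        obtain ⟨s1, s2, s3⟩ := h2
        have s1' : t ≤ dist (b : L1) (V k (cst k 0)) ∧ dist (b : L1) (V k (cst k 0)) ≤ t + w := s1
        have s2' : t ≤ dist (c : L1) (V k (cst k 0)) ∧ dist (c : L1) (V k (cst k 0)) ≤ t + w := s2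
        have s3' : dist (b : L1) (c : L1) ≤ w := s3
        rw [← hyb, dist_V, dd_zero hy] at s1'
        rw [← hzc, dist_V, dd_zero hz] at s2'
        rw [← hyb, ← hzc, dist_V] at s3'
        exact ⟨z, hz, hzc, hc.tail ⟨hy, hz, s1', s2', s3'⟩⟩
    obtain ⟨y, hy, hyb, hc⟩ := key
    have h1 := light_dia k t w hw x y hc
    have h2 : dist a b = dist (a : L1) (b : L1) := rfl
    rw [h2, ← hxa, ← hyb, dist_V]
    exact h1

theorem lower_DM {k d : ℕ} {D : ℝ} (hD : 1 ≤ D) (h : Embeds (DM k) D d) {N : ℕ}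
    (hN1 : 1 ≤ N) (hN : D * d ≤ 2 ^ (N - 1)) : (k : ℝ) ≤ 20 * D ^ 2 * N := by
  classical
  obtain ⟨f, s, hs, hf⟩ := h
  set F : (Idx k → ℝ) → Fin d → ℝ := fun x i =>
    if hx : V k x ∈ DM k then (f ⟨V k x, hx⟩) i / s else 0 with hFdef
  have hF : ∀ x ∈ Dia k, ∀ y ∈ Dia k, dd k x y ≤ ∑ i, |F x i - F y i| ∧
      ∑ i, |F x i - F y i| ≤ D * dd k x y := by
    intro x hx y hy
    have mx : V k x ∈ DM k := mem_image_of_mem _ hx
    have my : V k y ∈ DM k := mem_image_of_mem _ hy
    have h1 := hf ⟨V k x, mx⟩ ⟨V k y, my⟩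
    have h0 : dist (⟨V k x, mx⟩ : DM k) ⟨V k y, my⟩ = dd k x y := dist_V k x y
    rw [h0, PiLp.dist_eq_of_L1] at h1
    have h2 : ∑ i, |F x i - F y i| =
        (∑ i, dist ((f ⟨V k x, mx⟩) i) ((f ⟨V k y, my⟩) i)) / s := by
      rw [sum_div]
      refine sum_congr rfl fun i _ => ?_
      rw [hFdef]
      simp only [dif_pos mx, dif_pos my]
      rw [← sub_div, abs_div, abs_of_pos hs, Real.dist_eq]
    rw [h2]
    constructor
    · rw [le_div_iff₀ hs]; linarith [h1.1]
    · rw [div_le_iff₀ hs]; linarith [h1.2]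
  have h3 := core hD hN1 hN k F hF
  have h4 := vp_nonneg (show 0 < D by linarith) N (fun i => F (cst k 1) i - F (cst k 0) i)
  have h5 : (k : ℝ) * (1 / (20 * D)) ≤ N * D := by linarith
  have h6 : (k : ℝ) * (1 / (20 * D)) = k / (20 * D) := by ring
  rw [h6, div_le_iff₀ (by positivity)] at h5
  linarith

/-- the lower bound in terms of the number of points -/
theorem lower_n {n : ℕ} (hn : 2 ≤ n) {D : ℝ} (hD : 1 ≤ D) :
    ∃ M : Finset L1, M.card ≤ n ∧ (∃ h : M → ℝ, IsLight 8 h) ∧
      ∀ d : ℕ, Embeds M D d → (n : ℝ) ^ (1 / (64 * D ^ 2)) / (4 * D) ≤ d := by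
  classical
  have hD0 : 0 < D := by linarith
  set k := Nat.log 4 (n / 2) with hk
  have hn2 : n / 2 ≠ 0 := by omega
  have h1 : 4 ^ k ≤ n / 2 := Nat.pow_log_le_self 4 hn2
  have h2 : n / 2 < 4 ^ (k + 1) := Nat.lt_pow_succ_log_self (by norm_num) _
  refine ⟨DM k, (card_DM k).trans (by omega), light_DM k, ?_⟩
  intro d hd
  -- the dimension is positive
  have hd1 : 1 ≤ d := by
    by_contra h0
    have hd0 : d = 0 := by omega
    subst hd0
    obtain ⟨f, s, hs, hf⟩ := hd
    have m0 : V k (cst k 0) ∈ DM k := mem_image_of_mem _ (cst_mem k).1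
    have m1 : V k (cst k 1) ∈ DM k := mem_image_of_mem _ (cst_mem k).2
    have h3 := (hf ⟨V k (cst k 0), m0⟩ ⟨V k (cst k 1), m1⟩).1
    have h4 : dist (⟨V k (cst k 0), m0⟩ : DM k) ⟨V k (cst k 1), m1⟩ = dd k (cst k 0) (cst k 1) :=
      dist_V k _ _
    rw [h4, dd_cst, PiLp.dist_eq_of_L1] at h3
    simp only [univ_eq_empty, sum_empty] at h3
    norm_num at h3
    linarith
  have hdR : (1 : ℝ) ≤ d := by exact_mod_cast hd1
  have hDd : 1 ≤ D * d := by nlinarith
  set c := Nat.clog 2 ⌈D * d⌉₊ with hc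
  have h3 : D * d ≤ 2 ^ (c + 1 - 1) := by
    rw [Nat.add_sub_cancel]
    have h4 : ⌈D * d⌉₊ ≤ 2 ^ c := Nat.le_pow_clog (by norm_num) _
    have h5 : ((⌈D * d⌉₊ : ℕ) : ℝ) ≤ 2 ^ c := by exact_mod_cast h4
    exact (Nat.le_ceil _).trans h5
  have h4 := lower_DM hD hd (by omega) h3
  have h5 : (2 : ℝ) ^ c ≤ 4 * (D * d) := by
    rcases Nat.lt_or_ge 1 ⌈D * d⌉₊ with h6 | h6
    · have h7 : 2 ^ (c - 1) < ⌈D * d⌉₊ := Nat.pow_pred_clog_lt_self (by norm_num) h6
      have h8 : ((2 : ℝ) ^ (c - 1)) < ⌈D * d⌉₊ := by exact_mod_cast h7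
      have h9 : (⌈D * d⌉₊ : ℝ) < D * d + 1 := Nat.ceil_lt_add_one (by linarith)
      have hc1 : 1 ≤ c := by
        have := Nat.clog_pos (b := 2) (by norm_num) (show 2 ≤ ⌈D * d⌉₊ by omega)
        omega
      obtain ⟨c', hc'⟩ : ∃ c', c = c' + 1 := ⟨c - 1, by omega⟩
      rw [hc', Nat.add_sub_cancel] at h8
      rw [hc', pow_succ]
      linarith
    · have h7 : c = 0 := by
        rw [hc]
        exact Nat.clog_of_right_le_one h6 2
      rw [h7, pow_zero]
      linarith
  set T := Real.log (4 * (D * d)) with hT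
  have hl2 : 0 < Real.log 2 := Real.log_pos (by norm_num)
  have hT2 : 2 * Real.log 2 ≤ T := by
    have h6 : Real.log 4 = 2 * Real.log 2 := by
      rw [show (4 : ℝ) = 2 ^ 2 by norm_num, Real.log_pow]; norm_num
    rw [← h6]
    exact Real.log_le_log (by norm_num) (by linarith)
  have hcT : (c : ℝ) * Real.log 2 ≤ T := by
    have h6 := Real.log_le_log (by positivity) h5
    rwa [Real.log_pow] at h6
  have hkT : (k : ℝ) * Real.log 2 ≤ 30 * D ^ 2 * T := by
    have h6 : (k : ℝ) * Real.log 2 ≤ 20 * D ^ 2 * ((c + 1 : ℕ) : ℝ) * Real.log 2 :=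
      mul_le_mul_of_nonneg_right h4 hl2.le
    push_cast at h6
    have h7 : 20 * D ^ 2 * ((c : ℝ) + 1) * Real.log 2 =
        20 * D ^ 2 * (c * Real.log 2 + Real.log 2) := by ring
    rw [h7] at h6
    have h8 : 20 * D ^ 2 * (c * Real.log 2 + Real.log 2) ≤ 20 * D ^ 2 * (T + T / 2) :=
      mul_le_mul_of_nonneg_left (by linarith) (by positivity)
    linarith
  have hnlog : Real.log n ≤ (3 + 2 * k) * Real.log 2 := by
    have h6 : n ≤ 8 * 4 ^ k := by
      rw [pow_succ] at h2
      omega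
    have h7 : (n : ℝ) ≤ 2 ^ (3 + 2 * k) := by
      have h8 : (8 : ℝ) * 4 ^ k = 2 ^ (3 + 2 * k) := by
        rw [pow_add, pow_mul]; norm_num
      rw [← h8]
      exact_mod_cast h6
    have h9 := Real.log_le_log (by positivity) h7
    rw [Real.log_pow] at h9
    push_cast at h9
    exact h9
  have hfin : Real.log n * (1 / (64 * D ^ 2)) ≤ T := by
    rw [mul_one_div, div_le_iff₀ (by positivity)]
    have hD2 : 1 ≤ D ^ 2 := one_le_pow₀ hD
    have hT0 : 0 < T := by linarith
    nlinarith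
  have h6 : (n : ℝ) ^ (1 / (64 * D ^ 2)) ≤ 4 * (D * d) := by
    have hn0 : (0 : ℝ) < n := by
      have : (2 : ℝ) ≤ n := by exact_mod_cast hn
      linarith
    rw [Real.rpow_def_of_pos hn0]
    calc Real.exp (Real.log n * (1 / (64 * D ^ 2))) ≤ Real.exp T := Real.exp_le_exp.2 hfin
      _ = 4 * (D * d) := by rw [hT, Real.exp_log (by positivity)]
  rw [div_le_iff₀ (by positivity)]
  linarith

theorem IsLight.mono {X : Type} [MetricSpace X] {L L' : ℝ} {h : X → ℝ} (hl : IsLight L h)
    (hL : L ≤ L') : IsLight L' h :=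
  ⟨hl.1, fun t w hw a b hab => (hl.2 t w hw a b hab).trans
    (mul_le_mul_of_nonneg_right hL hw.le)⟩

/-- The supremum of `dimD M D` over all `M ⊆ ℓ₁` with at most `n` points and an `L`-light
function. -/
noncomputable def KL (L : ℝ) (n : ℕ) (D : ℝ) : ℕ∞ :=
  ⨆ (M : Finset L1) (_ : M.card ≤ n) (_ : ∃ h : M → ℝ, IsLight L h), dimD M D

theorem KL_upper {n : ℕ} (hn : 2 ≤ n) {L D : ℝ} (hL : 1 ≤ L) (hD : 768 * L ≤ D) :
    KL L n D ≤ ((⌊65 * D * (n : ℝ) ^ (851000 * L ^ 2 / D ^ 2) * Real.log n⌋₊ : ℕ) : ℕ∞) := by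
  unfold KL
  refine iSup_le fun M => iSup_le fun hM => iSup_le fun hh => ?_
  obtain ⟨h, hh⟩ := hh
  exact dim_light hn hL hD M hM h hh

theorem KL_lower {n : ℕ} (hn : 2 ≤ n) {L D : ℝ} (hL : 8 ≤ L) (hD : 1 ≤ D) :
    ((⌈(n : ℝ) ^ (1 / (64 * D ^ 2)) / (4 * D)⌉₊ : ℕ) : ℕ∞) ≤ KL L n D := by
  obtain ⟨M, hM, ⟨h, hh⟩, hlow⟩ := lower_n hn hD
  have h1 : ((⌈(n : ℝ) ^ (1 / (64 * D ^ 2)) / (4 * D)⌉₊ : ℕ) : ℕ∞) ≤ dimD M D := by
    unfold dimD
    refine le_iInf fun d => le_iInf fun hd => ?_
    exact_mod_cast Nat.ceil_le.2 (hlow d hd)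
  refine h1.trans ?_
  unfold KL
  exact le_iSup_of_le M (le_iSup_of_le hM (le_iSup_of_le ⟨h, hh.mono hL⟩ le_rfl))

end Pool.Agent.Lib.MP_716709_gt.Light93
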