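import Mathlib

/-!
Dyadic positions of a real number and the components of chains inside dyadic bands.
-/

set_option autoImplicit false
set_option linter.unusedSectionVars false
set_option linter.unusedVariables false

namespace Pool.Agent.Lib.MP_716709_gt.Light93

open Finset

/-- the scaled position inside the dyadic interval of level `j` -/
noncomputable def fr (y : ℝ) (j : ℕ) : ℝ := Int.fract (2 ^ j * y)

/-- the index of the dyadic interval of level `j` -/
noncomputable def ix (y : ℝ) (j : ℕ) : ℤ := ⌊(2 : ℝ) ^ j * y⌋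

theorem fr_nonneg (y : ℝ) (j : ℕ) : 0 ≤ fr y j := Int.fract_nonneg _

theorem fr_lt_one (y : ℝ) (j : ℕ) : fr y j < 1 := Int.fract_lt_one _

theorem ix_add_fr (y : ℝ) (j : ℕ) : (ix y j : ℝ) + fr y j = 2 ^ j * y := Int.floor_add_fract _

theorem ix_succ_hi {y : ℝ} {j : ℕ} (h : 1 / 2 ≤ fr y j) : ix y (j + 1) = 2 * ix y j + 1 := by
  have h1 := ix_add_fr y j
  have h2 := fr_lt_one y j
  have h3 : (2 : ℝ) ^ (j + 1) * y = 2 * (2 ^ j * y) := by ring
  unfold ix at *
  rw [h3, Int.floor_eq_iff]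
  push_cast
  constructor
  · linarith
  · linarith

theorem ix_succ_lo {y : ℝ} {j : ℕ} (h : ¬ 1 / 2 ≤ fr y j) : ix y (j + 1) = 2 * ix y j := by
  have h1 := ix_add_fr y j
  have h2 := fr_nonneg y j
  have h3 : (2 : ℝ) ^ (j + 1) * y = 2 * (2 ^ j * y) := by ring
  unfold ix at *
  push Not at h
  rw [h3, Int.floor_eq_iff]
  push_cast
  constructor
  · linarith
  · linarith

theorem fr_succ_hi {y : ℝ} {j : ℕ} (h : 1 / 2 ≤ fr y j) : fr y (j + 1) = 2 * fr y j - 1 := by
  have h1 := ix_add_fr y j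
  have h2 := ix_add_fr y (j + 1)
  rw [ix_succ_hi h] at h2
  push_cast at h2
  have h3 : (2 : ℝ) ^ (j + 1) * y = 2 * (2 ^ j * y) := by ring
  linarith

theorem fr_succ_lo {y : ℝ} {j : ℕ} (h : ¬ 1 / 2 ≤ fr y j) : fr y (j + 1) = 2 * fr y j := by
  have h1 := ix_add_fr y j
  have h2 := ix_add_fr y (j + 1)
  rw [ix_succ_lo h] at h2
  push_cast at h2
  have h3 : (2 : ℝ) ^ (j + 1) * y = 2 * (2 ^ j * y) := by ring
  linarith

/-- equal indices at one level give equal indices at the level above -/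
theorem ix_pred {y z : ℝ} {j : ℕ} (h : ix y (j + 1) = ix z (j + 1)) : ix y j = ix z j := by
  by_cases hy : 1 / 2 ≤ fr y j <;> by_cases hz : 1 / 2 ≤ fr z j
  · rw [ix_succ_hi hy, ix_succ_hi hz] at h; omega
  · rw [ix_succ_hi hy, ix_succ_lo hz] at h; omega
  · rw [ix_succ_lo hy, ix_succ_hi hz] at h; omega
  · rw [ix_succ_lo hy, ix_succ_lo hz] at h; omega

/-- the distance to the two ends of the dyadic interval of level `j` -/
noncomputable def tent (y : ℝ) (j : ℕ) : ℝ := min (fr y j) (1 - fr y j) / 2 ^ j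

theorem tent_succ_le (y : ℝ) (j : ℕ) : tent y (j + 1) ≤ tent y j := by
  unfold tent
  have hp : (0 : ℝ) < 2 ^ j := by positivity
  have h0 := fr_nonneg y j
  have h1 := fr_lt_one y j
  rw [pow_succ, div_le_div_iff₀ (by positivity) hp]
  have key : min (fr y (j + 1)) (1 - fr y (j + 1)) ≤ 2 * min (fr y j) (1 - fr y j) := by
    by_cases h : 1 / 2 ≤ fr y j
    · rw [fr_succ_hi h]
      rcases le_total (fr y j) (1 - fr y j) with h2 | h2
      · rw [min_eq_left h2]
        exact (min_le_left _ _).trans (by linarith)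
      · rw [min_eq_right h2]
        exact (min_le_right _ _).trans (by linarith)
    · rw [fr_succ_lo h]
      push Not at h
      rw [min_eq_left (show fr y j ≤ 1 - fr y j by linarith)]
      exact min_le_left _ _
  nlinarith

theorem tent_anti (y : ℝ) {i j : ℕ} (h : i ≤ j) : tent y j ≤ tent y i :=
  antitone_nat_of_succ_le (tent_succ_le y) h

theorem tent_nonneg (y : ℝ) (j : ℕ) : 0 ≤ tent y j := by
  unfold tent
  have h0 := fr_nonneg y j
  have h1 := fr_lt_one y j
  exact div_nonneg (le_min h0 (by linarith)) (by positivity)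

/-- one third of a power of two is at distance at least one third of the integers -/
theorem third_far (j : ℕ) (m : ℤ) : 1 / 3 ≤ |(2 : ℝ) ^ j / 3 - m| := by
  have h1 : ((2 : ℤ) ^ j - 3 * m) ≠ 0 := by
    intro h
    have h2 : (3 : ℤ) ∣ 2 ^ j := ⟨m, by linarith⟩
    have h3 : (3 : ℤ) ∣ 2 := Int.prime_three.dvd_of_dvd_pow h2
    omega
  have h2 : (1 : ℤ) ≤ |(2 : ℤ) ^ j - 3 * m| := Int.one_le_abs h1
  have h3 : (1 : ℝ) ≤ |(2 : ℝ) ^ j - 3 * m| := by exact_mod_cast h2
  have h4 : (2 : ℝ) ^ j / 3 - m = ((2 : ℝ) ^ j - 3 * m) / 3 := by ring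
  rw [h4, abs_div, abs_of_pos (by norm_num : (0 : ℝ) < 3)]
  linarith

/-- in one of the two grids the point is well inside its interval -/
theorem good_grid (z : ℝ) (j : ℕ) :
    (1 / 6 ≤ fr z j ∧ fr z j ≤ 5 / 6) ∨ (1 / 6 ≤ fr (z - 1 / 3) j ∧ fr (z - 1 / 3) j ≤ 5 / 6) := by
  by_contra hcon
  rw [not_or, not_and_or, not_and_or] at hcon
  have hA : ∃ a : ℤ, |2 ^ j * z - a| < 1 / 6 := by
    have h1 := ix_add_fr z j
    have h2 := fr_nonneg z j
    have h3 := fr_lt_one z j
    rcases hcon.1 with h | h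
    · push Not at h
      exact ⟨ix z j, by rw [abs_lt]; constructor <;> linarith⟩
    · push Not at h
      refine ⟨ix z j + 1, ?_⟩
      push_cast
      rw [abs_lt]; constructor <;> linarith
  have hB : ∃ b : ℤ, |2 ^ j * (z - 1 / 3) - b| < 1 / 6 := by
    have h1 := ix_add_fr (z - 1 / 3) j
    have h2 := fr_nonneg (z - 1 / 3) j
    have h3 := fr_lt_one (z - 1 / 3) j
    rcases hcon.2 with h | h
    · push Not at h
      exact ⟨ix (z - 1 / 3) j, by rw [abs_lt]; constructor <;> linarith⟩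
    · push Not at h
      refine ⟨ix (z - 1 / 3) j + 1, ?_⟩
      push_cast
      rw [abs_lt]; constructor <;> linarith
  obtain ⟨a, ha⟩ := hA
  obtain ⟨b, hb⟩ := hB
  have h1 := third_far j (a - b)
  push_cast at h1
  rw [abs_lt] at ha hb
  have h2 : |(2 : ℝ) ^ j / 3 - (a - b)| < 1 / 3 := by
    rw [abs_lt]
    have e1 : (2 : ℝ) ^ j * (z - 1 / 3) = 2 ^ j * z - 2 ^ j / 3 := by ring
    rw [e1] at hb
    constructor <;> linarith [ha.1, ha.2, hb.1, hb.2]
  linarith

/-- a near point has the same index and is still inside -/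
theorem near_same {y z : ℝ} {j : ℕ} (h1 : 1 / 6 ≤ fr y j) (h2 : fr y j ≤ 5 / 6)
    (h : |y - z| * 2 ^ j ≤ 1 / 12) : 1 / 12 / 2 ^ j ≤ tent z j := by
  have e1 := ix_add_fr y j
  have hp : (0 : ℝ) < 2 ^ j := by positivity
  have h3 : |2 ^ j * y - 2 ^ j * z| ≤ 1 / 12 := by
    rw [← mul_sub, abs_mul, abs_of_pos hp]; linarith
  rw [abs_le] at h3
  have hix : ix z j = ix y j := by
    unfold ix
    rw [Int.floor_eq_iff]
    have e2 : ((⌊(2 : ℝ) ^ j * y⌋ : ℤ) : ℝ) = ix y j := rfl
    rw [e2]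
    constructor <;> linarith [h3.1, h3.2]
  have e3 := ix_add_fr z j
  rw [hix] at e3
  unfold tent
  apply div_le_div_of_nonneg_right _ hp.le
  apply le_min <;> linarith [h3.1, h3.2]

/-! the components -/

section comp

variable {M : Type} [Fintype M] (y : M → ℝ) (ρ : M → M → ℝ)

/-- one step inside a band of level `j` -/
def Step (j : ℕ) (a b : M) : Prop := ix (y a) j = ix (y b) j ∧ ρ a b ≤ 1 / 2 ^ j

/-- joined by a chain of steps -/
def Conn (j : ℕ) : M → M → Prop := Relation.ReflTransGen (Step y ρ j)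

open Classical in
/-- the component of level `j` -/
noncomputable def C (j : ℕ) (u : M) : Finset M := univ.filter (fun v => Conn y ρ j u v)

variable {y ρ}

theorem mem_C {j : ℕ} {u v : M} : v ∈ C y ρ j u ↔ Conn y ρ j u v := by
  classical
  unfold C; simp

theorem self_mem_C (j : ℕ) (u : M) : u ∈ C y ρ j u := mem_C.2 Relation.ReflTransGen.refl

theorem Conn.symm' (hsym : ∀ a b, ρ a b = ρ b a) {j : ℕ} {u v : M} (h : Conn y ρ j u v) :
    Conn y ρ j v u := by
  unfold Conn at *
  induction h with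
  | refl => exact Relation.ReflTransGen.refl
  | tail _ h2 ih =>
    exact Relation.ReflTransGen.head ⟨h2.1.symm, by rw [hsym]; exact h2.2⟩ ih

theorem C_eq_of_conn (hsym : ∀ a b, ρ a b = ρ b a) {j : ℕ} {u v : M} (h : Conn y ρ j u v) :
    C y ρ j u = C y ρ j v := by
  ext w
  rw [mem_C, mem_C]
  exact ⟨fun hw => (h.symm' hsym).trans hw, fun hw => h.trans hw⟩

theorem conn_of_C_eq {j : ℕ} {u v : M} (h : C y ρ j u = C y ρ j v) : Conn y ρ j u v := by
  rw [← mem_C, h]; exact self_mem_C j v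

theorem Conn.ix_eq {j : ℕ} {u v : M} (h : Conn y ρ j u v) : ix (y u) j = ix (y v) j := by
  unfold Conn at h
  induction h with
  | refl => rfl
  | tail _ h2 ih => exact ih.trans h2.1

theorem Conn.pred {j : ℕ} {u v : M} (h : Conn y ρ (j + 1) u v) : Conn y ρ j u v := by
  unfold Conn at *
  induction h with
  | refl => exact Relation.ReflTransGen.refl
  | tail _ h2 ih =>
    refine ih.tail ⟨ix_pred h2.1, h2.2.trans ?_⟩
    apply one_div_le_one_div_of_le (by positivity)
    rw [pow_succ]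
    have : (0 : ℝ) < 2 ^ j := by positivity
    linarith

theorem C_succ_subset (j : ℕ) (u : M) : C y ρ (j + 1) u ⊆ C y ρ j u := fun v hv =>
  mem_C.2 (mem_C.1 hv).pred

theorem C_eq_pred (hsym : ∀ a b, ρ a b = ρ b a) {j : ℕ} {u v : M}
    (h : C y ρ (j + 1) u = C y ρ (j + 1) v) : C y ρ j u = C y ρ j v :=
  C_eq_of_conn hsym (conn_of_C_eq h).pred

theorem C_eq_le (hsym : ∀ a b, ρ a b = ρ b a) {i j : ℕ} (hij : i ≤ j) {u v : M}
    (h : C y ρ j u = C y ρ j v) : C y ρ i u = C y ρ i v := by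
  induction j with
  | zero => rw [Nat.le_zero.1 hij]; exact h
  | succ j ih =>
    rcases Nat.lt_or_ge i (j + 1) with h1 | h1
    · exact ih (by omega) (C_eq_pred hsym h)
    · have : i = j + 1 := by omega
      rw [this]; exact h

theorem C_disjoint (hsym : ∀ a b, ρ a b = ρ b a) {j : ℕ} {u v : M}
    (h : C y ρ j u ≠ C y ρ j v) : Disjoint (C y ρ j u) (C y ρ j v) := by
  rw [Finset.disjoint_left]
  intro w hw hw'
  apply h
  rw [C_eq_of_conn hsym (mem_C.1 hw), C_eq_of_conn hsym (mem_C.1 hw')]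

theorem C_zero_eq (hsym : ∀ a b, ρ a b = ρ b a) (h0 : ∀ u, 0 ≤ y u) (h1 : ∀ u, y u < 1)
    (hρ : ∀ a b, ρ a b ≤ 1) (u v : M) : C y ρ 0 u = C y ρ 0 v := by
  apply C_eq_of_conn hsym
  refine Relation.ReflTransGen.single ⟨?_, by simpa using hρ u v⟩
  have h2 : ∀ w, ix (y w) 0 = 0 := by
    intro w
    unfold ix
    rw [Int.floor_eq_iff]
    simp only [pow_zero, one_mul, Int.cast_zero, zero_add]
    exact ⟨h0 w, h1 w⟩
  rw [h2, h2]

/-- a component with at most half of the points of the component above it -/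
def Small (y : M → ℝ) (ρ : M → M → ℝ) (j : ℕ) (u : M) : Prop :=
  2 * (C y ρ j u).card ≤ (C y ρ (j - 1) u).card

open Classical in
/-- the number of small components in the first levels -/
noncomputable def cnt (y : M → ℝ) (ρ : M → M → ℝ) (u : M) : ℕ → ℕ
  | 0 => 0
  | j + 1 => cnt y ρ u j + if Small y ρ j u then 1 else 0

theorem C_card_pos (j : ℕ) (u : M) : 0 < (C y ρ j u).card := card_pos.2 ⟨u, self_mem_C j u⟩

theorem pow_cnt (u : M) (j : ℕ) :
    2 ^ cnt y ρ u (j + 1) * (C y ρ j u).card ≤ Fintype.card M := by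
  classical
  induction j with
  | zero =>
    have h1 : ¬ Small y ρ 0 u := by
      unfold Small
      have := C_card_pos (y := y) (ρ := ρ) 0 u
      simp only [Nat.zero_sub]
      omega
    simp only [cnt, if_neg h1]
    simpa using card_le_univ (C y ρ 0 u)
  | succ j ih =>
    have h2 : (C y ρ (j + 1) u).card ≤ (C y ρ j u).card := card_le_card (C_succ_subset j u)
    by_cases h : Small y ρ (j + 1) u
    · have h3 : cnt y ρ u (j + 1 + 1) = cnt y ρ u (j + 1) + 1 := by
        rw [cnt, if_pos h]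
      rw [h3, pow_succ]
      have h4 : 2 * (C y ρ (j + 1) u).card ≤ (C y ρ j u).card := h
      calc 2 ^ cnt y ρ u (j + 1) * 2 * (C y ρ (j + 1) u).card
          = 2 ^ cnt y ρ u (j + 1) * (2 * (C y ρ (j + 1) u).card) := by ring
        _ ≤ 2 ^ cnt y ρ u (j + 1) * (C y ρ j u).card := Nat.mul_le_mul_left _ h4
        _ ≤ _ := ih
    · have h3 : cnt y ρ u (j + 1 + 1) = cnt y ρ u (j + 1) := by
        rw [cnt, if_neg h, add_zero]
      rw [h3]
      exact (Nat.mul_le_mul_left _ h2).trans ih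

theorem two_pow_cnt_le (u : M) (j : ℕ) : 2 ^ cnt y ρ u j ≤ Fintype.card M := by
  cases j with
  | zero =>
    simp only [cnt, pow_zero]
    exact Fintype.card_pos_iff.2 ⟨u⟩
  | succ j =>
    have h1 := pow_cnt (y := y) (ρ := ρ) u j
    have h2 := C_card_pos (y := y) (ρ := ρ) j u
    exact (Nat.le_mul_of_pos_right _ h2).trans h1

end comp

end Pool.Agent.Lib.MP_716709_gt.Light93
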