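import Pool.Agent.Lib.MP_716709_gt.Light93.Pairs
import Pool.Agent.Lib.MP_716709_gt.Upper.Wrap

/-!
Finite metric spaces with a light function: the random functions and the dimension bound.
-/

set_option autoImplicit false
set_option linter.unusedSectionVars false
set_option linter.unusedVariables false

namespace Pool.Agent.Lib.MP_716709_gt.Light93

open Finset
open Pool.Agent.Lib.MP_716709_gt.Upper

/-- One step of a chain inside a band: both `h`-values lie in `[t, t + w]` and the distance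
is at most `w`. -/
def BandStep {X : Type} [MetricSpace X] (h : X → ℝ) (t w : ℝ) (a b : X) : Prop :=
  (t ≤ h a ∧ h a ≤ t + w) ∧ (t ≤ h b ∧ h b ≤ t + w) ∧ dist a b ≤ w

/-- `h` is 1-Lipschitz, and two points joined by a chain of steps inside a band of width `w`
are at distance at most `L * w`, for every band. -/
def IsLight {X : Type} [MetricSpace X] (L : ℝ) (h : X → ℝ) : Prop :=
  (∀ a b : X, |h a - h b| ≤ dist a b) ∧
  ∀ t w : ℝ, 0 < w → ∀ a b : X, Relation.ReflTransGen (BandStep h t w) a b → dist a b ≤ L * w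

theorem conn_light {X : Type} [MetricSpace X] [Fintype X] {L : ℝ} {h : X → ℝ} {W c : ℝ} (hW : 0 < W)
    (hlight : IsLight L h) {j : ℕ} {u v : X}
    (hc : Conn (fun a => c + h a / W) (fun a b => dist a b / W) j u v) :
    dist u v / W ≤ L / 2 ^ j := by
  set y : X → ℝ := fun a => c + h a / W with hy
  set ρ : X → X → ℝ := fun a b => dist a b / W with hρ
  have hp : (0 : ℝ) < 2 ^ j := by positivity
  set m : ℤ := ix (y u) j with hm
  set w : ℝ := W / 2 ^ j with hw
  set t : ℝ := W * (m / 2 ^ j - c) with ht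
  have hw0 : 0 < w := by positivity
  have hband : ∀ a, ix (y a) j = m → t ≤ h a ∧ h a ≤ t + w := by
    intro a ha
    have e := ix_add_fr (y a) j
    have f0 := fr_nonneg (y a) j
    have f1 := fr_lt_one (y a) j
    rw [ha] at e
    have hh : h a = W * (y a - c) := by
      rw [hy]; field_simp; ring
    have hy2 : y a = (m + fr (y a) j) / 2 ^ j := by
      rw [e]; field_simp
    have h3 : (m : ℝ) / 2 ^ j ≤ (m + fr (y a) j) / 2 ^ j :=
      div_le_div_of_nonneg_right (by linarith) hp.le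
    have h4 : ((m : ℝ) + fr (y a) j) / 2 ^ j ≤ (m + 1) / 2 ^ j :=
      div_le_div_of_nonneg_right (by linarith) hp.le
    rw [← hy2] at h3 h4
    constructor
    · rw [hh, ht]
      exact mul_le_mul_of_nonneg_left (by linarith) hW.le
    · have h5 : t + w = W * ((m + 1) / 2 ^ j - c) := by rw [ht, hw]; ring
      rw [h5, hh]
      exact mul_le_mul_of_nonneg_left (by linarith) hW.le
  have hchain : ∀ v, Conn y ρ j u v → Relation.ReflTransGen (BandStep h t w) u v := by
    intro v hv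
    unfold Conn at hv
    induction hv with
    | refl => exact Relation.ReflTransGen.refl
    | @tail b d h1 h2 ih =>
      have e1 := Conn.ix_eq (show Conn y ρ j u b from h1)
      refine ih.tail ⟨hband _ e1.symm, hband _ (e1.trans h2.1).symm, ?_⟩
      have h3 : dist b d / W ≤ 1 / 2 ^ j := h2.2
      rw [div_le_div_iff₀ hW hp] at h3
      rw [hw, le_div_iff₀ hp]
      linarith
  have h6 := hlight.2 t w hw0 u v (hchain v hc)
  rw [div_le_div_iff₀ hW hp]
  calc dist u v * 2 ^ j ≤ L * w * 2 ^ j := mul_le_mul_of_nonneg_right h6 hp.le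
    _ = L * W := by rw [hw]; field_simp

/-- a fair mixture of two copies -/
noncomputable def mixP {Ω : Type} (p : Ω → ℝ) : Bool × Ω → ℝ := fun q => 1 / 2 * p q.2

theorem isProb_mix {Ω : Type} [Fintype Ω] {p : Ω → ℝ} (hp : IsProb p) : IsProb (mixP p) where
  nonneg q := mul_nonneg (by norm_num) (hp.nonneg _)
  sum_one := by
    unfold mixP
    rw [Fintype.sum_prod_type, Fintype.sum_bool, ← mul_sum, hp.sum_one]; norm_num

theorem Ex_mix {Ω : Type} [Fintype Ω] (p : Ω → ℝ) (f : Bool × Ω → ℝ) :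
    Ex (mixP p) f = 1 / 2 * Ex p (fun ω => f (true, ω)) + 1 / 2 * Ex p (fun ω => f (false, ω)) := by
  unfold Ex mixP
  rw [Fintype.sum_prod_type, Fintype.sum_bool, mul_sum, mul_sum]
  congr 1 <;> exact sum_congr rfl fun ω _ => by ring

theorem random_light {X : Type} [MetricSpace X] [Fintype X] [DecidableEq X] {L D lam : ℝ}
    (hL : 1 ≤ L) (hD : 1 ≤ D) (hl : 1 ≤ lam) (h : X → ℝ) (hlight : IsLight L h)
    (hlam : ∀ c : ℕ, 2 ^ c ≤ Fintype.card X → 2 * (1 + 1 / D ^ 2) ^ c ≤ lam) :
    ∃ (Ω : Type) (_ : Fintype Ω) (p : Ω → ℝ) (ψ : Ω → X → ℝ), IsProb p ∧ ∀ x y : X,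
      (∀ ω, |ψ ω x - ψ ω y| ≤ 4 * lam * dist x y) ∧
      1 / (96 * L * D) * dist x y ≤ Ex p (fun ω => |ψ ω x - ψ ω y|) ∧
      Ex p (fun ω => |ψ ω x - ψ ω y|) ≤ 2 * dist x y := by
  rcases isEmpty_or_nonempty X with hX | ⟨⟨u0⟩⟩
  · exact ⟨Unit, inferInstance, fun _ => 1, fun _ _ => 0, ⟨fun _ => zero_le_one, by simp⟩,
      fun x => hX.elim x⟩
  set Δ : ℝ := ∑ a : X, ∑ b : X, dist a b with hΔdef
  have hΔ : ∀ a b : X, dist a b ≤ Δ := by
    intro a b
    calc dist a b ≤ ∑ b, dist a b :=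
          single_le_sum (f := fun b => dist a b) (fun i _ => dist_nonneg) (mem_univ b)
      _ ≤ Δ := single_le_sum (f := fun a => ∑ b, dist a b)
          (fun i _ => sum_nonneg fun _ _ => dist_nonneg) (mem_univ a)
  have hΔ0 : 0 ≤ Δ := sum_nonneg fun _ _ => sum_nonneg fun _ _ => dist_nonneg
  set W : ℝ := 100 * (Δ + 1) with hWdef
  have hW : 0 < W := by positivity
  set ρ : X → X → ℝ := fun a b => dist a b / W with hρ
  have hρsmall : ∀ a b, ρ a b ≤ 1 / 100 := by
    intro a b
    have h1 := hΔ a b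
    rw [hρ]
    simp only
    rw [div_le_div_iff₀ hW (by norm_num)]
    linarith
  have hρ1 : ∀ a b, ρ a b ≤ 1 := fun a b => (hρsmall a b).trans (by norm_num)
  have hsym : ∀ a b, ρ a b = ρ b a := fun a b => by
    rw [hρ]; simp only; rw [dist_comm]
  set c0 : ℝ := 1 / 2 - h u0 / W with hc0
  set cc : Bool → ℝ := fun b => if b then c0 else c0 - 1 / 3 with hcc
  set yy : Bool → X → ℝ := fun b a => cc b + h a / W with hyy
  have hyd : ∀ b u v, yy b u - yy b v = (h u - h v) / W := by
    intro b u v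
    rw [hyy]; simp only; ring
  have hlip : ∀ b u v, |yy b u - yy b v| ≤ ρ u v := by
    intro b u v
    rw [hyd, abs_div, abs_of_pos hW]
    exact div_le_div_of_nonneg_right (hlight.1 u v) hW.le
  have hyt : ∀ a, yy true a = 1 / 2 + (h a - h u0) / W := by
    intro a
    rw [hyy, hcc]; simp only [if_true]; rw [hc0]; ring
  have hyf : ∀ a, yy false a = yy true a - 1 / 3 := by
    intro a
    rw [hyy, hcc]; simp only [if_true]
    rw [if_neg (by decide)]; ring
  have hsmall : ∀ a, |(h a - h u0) / W| ≤ 1 / 100 := by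
    intro a
    have h1 := hlip true a u0
    rw [hyd] at h1
    exact h1.trans (hρsmall a u0)
  have h0 : ∀ b a, 0 ≤ yy b a := by
    intro b a
    have h1 := abs_le.1 (hsmall a)
    cases b
    · rw [hyf, hyt]; linarith [h1.1]
    · rw [hyt]; linarith [h1.1]
  have h1 : ∀ b a, yy b a < 1 := by
    intro b a
    have h1 := abs_le.1 (hsmall a)
    cases b
    · rw [hyf, hyt]; linarith [h1.2]
    · rw [hyt]; linarith [h1.2]
  -- the number of levels
  have hex : ∀ u v : X, u ≠ v → ∃ j : ℕ, L / 2 ^ j < ρ u v := by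
    intro u v huv
    have hpos : 0 < ρ u v := div_pos (dist_pos.2 huv) hW
    obtain ⟨j, hj⟩ := pow_unbounded_of_one_lt (L / ρ u v) (one_lt_two (α := ℝ))
    refine ⟨j, ?_⟩
    rw [div_lt_iff₀ hpos] at hj
    rw [div_lt_iff₀ (by positivity)]
    linarith
  choose! N hN using hex
  set J : ℕ := (univ.sup fun p : X × X => N p.1 p.2) + 1 with hJ
  have hlam' : ∀ b u j, 2 * (1 + 1 / D ^ 2) ^ cnt (yy b) ρ u j ≤ lam := fun b u j =>
    hlam _ (two_pow_cnt_le u j)
  refine ⟨Bool × Om X J, inferInstance, mixP (un X J),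
    fun q x => W * F (yy q.1) ρ D lam q.2 x, isProb_mix isProb_un, ?_⟩
  intro u v
  have hup := fun b => pair_upper (J := J) (y := yy b) (ρ := ρ) (D := D) (lam := lam) hD hl hsym
    (h0 b) (h1 b) hρ1 (hlip b) u v
  set E : Bool → ℝ := fun b =>
    Ex (un X J) (fun ω => |F (yy b) ρ D lam ω u - F (yy b) ρ D lam ω v|) with hE
  have hE0 : ∀ b, 0 ≤ E b := fun b => Ex_nonneg isProb_un fun ω => abs_nonneg _
  have hWd : W * ρ u v = dist u v := by
    rw [hρ]; simp only; field_simp
  have habs : ∀ q : Bool × Om X J, |W * F (yy q.1) ρ D lam q.2 u - W * F (yy q.1) ρ D lam q.2 v| =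
      W * |F (yy q.1) ρ D lam q.2 u - F (yy q.1) ρ D lam q.2 v| := by
    intro q
    rw [← mul_sub, abs_mul, abs_of_pos hW]
  have hmix : Ex (mixP (un X J)) (fun q => |W * F (yy q.1) ρ D lam q.2 u -
      W * F (yy q.1) ρ D lam q.2 v|) = W * (1 / 2 * E true + 1 / 2 * E false) := by
    simp only [habs]
    rw [Ex_mul_left, Ex_mix]
  refine ⟨?_, ?_, ?_⟩
  · intro q
    rw [habs]
    calc W * |F (yy q.1) ρ D lam q.2 u - F (yy q.1) ρ D lam q.2 v|
        ≤ W * (4 * lam * ρ u v) := mul_le_mul_of_nonneg_left ((hup q.1).1 q.2) hW.le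
      _ = 4 * lam * dist u v := by rw [← hWd]; ring
  · rw [hmix, ← hWd]
    by_cases huv : u = v
    · have : ρ u v = 0 := by rw [hρ, huv]; simp
      rw [this]
      have h2 := hE0 true
      have h3 := hE0 false
      simp only [mul_zero]
      positivity
    have hpos : 0 < ρ u v := div_pos (dist_pos.2 huv) hW
    have key : 1 / (96 * L * D) * ρ u v ≤ 1 / 2 * E true + 1 / 2 * E false := by
      classical
      have hP : ∃ j : ℕ, L / 2 ^ j < ρ u v := ⟨_, hN u v huv⟩
      set j0 := Nat.find hP with hj0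
      have hj1 : L / 2 ^ j0 < ρ u v := Nat.find_spec hP
      have hj2 : j0 ≤ N u v := Nat.find_min' hP (hN u v huv)
      have hj3 : j0 < J := by
        have : N u v ≤ univ.sup fun p : X × X => N p.1 p.2 :=
          le_sup (f := fun p : X × X => N p.1 p.2) (mem_univ (u, v))
        omega
      have hq : (0 : ℝ) < 2 ^ j0 := by positivity
      have hj4 : ρ u v * 2 ^ j0 ≤ 2 * L := by
        cases hc : j0 with
        | zero =>
          rw [pow_zero]
          have := hρ1 u v
          linarith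
        | succ i =>
          have h2 : ¬ (L / 2 ^ i < ρ u v) := Nat.find_min hP (by omega)
          push Not at h2
          rw [le_div_iff₀ (by positivity)] at h2
          rw [pow_succ]; linarith
      have hne : ∀ b, C (yy b) ρ j0 u ≠ C (yy b) ρ j0 v := by
        intro b heq
        have h2 := conn_light hW hlight (conn_of_C_eq heq)
        exact absurd hj1 (not_lt.2 h2)
      have hLD : 0 < 96 * L * D := by positivity
      by_cases hcase : ρ u v / (24 * L) ≤ |(h u - h v) / W|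
      · have h2 : ∀ b, ρ u v / (24 * L) ≤ E b := fun b => by
          refine hcase.trans ?_
          rw [← hyd b u v]
          exact mean_lower (h0 b) (h1 b) u v
        have h3 : 1 / (96 * L * D) * ρ u v ≤ ρ u v / (24 * L) := by
          rw [one_div_mul_eq_div]
          apply div_le_div_of_nonneg_left hpos.le (by positivity)
          nlinarith
        linarith [h2 true, h2 false]
      · push Not at hcase
        have hclose : ∀ b, |yy b u - yy b v| * 2 ^ j0 ≤ 1 / 12 := by
          intro b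
          rw [hyd]
          calc |(h u - h v) / W| * 2 ^ j0 ≤ ρ u v / (24 * L) * 2 ^ j0 :=
                mul_le_mul_of_nonneg_right hcase.le hq.le
            _ = (ρ u v * 2 ^ j0) / (24 * L) := by ring
            _ ≤ (2 * L) / (24 * L) := div_le_div_of_nonneg_right hj4 (by positivity)
            _ = 1 / 12 := by field_simp; norm_num
        have hgood : ∀ b, 1 / 6 ≤ fr (yy b u) j0 → fr (yy b u) j0 ≤ 5 / 6 →
            2 * (1 / (96 * L * D) * ρ u v) ≤ E b := by
          intro b g1 g2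
          have t1 : 1 / 12 / 2 ^ j0 ≤ tent (yy b u) j0 :=
            near_same g1 g2 (by rw [sub_self, abs_zero, zero_mul]; norm_num)
          have t2 : 1 / 12 / 2 ^ j0 ≤ tent (yy b v) j0 := near_same g1 g2 (hclose b)
          have h2 := sep (J := J) hD hl hsym (h0 b) (h1 b) hρ1 (hlam' b) hj3 (hne b) t1 t2
          refine le_trans ?_ h2
          have h3 : (1 : ℝ) / 12 / 2 ^ j0 / (2 * D) = 1 / (24 * D * 2 ^ j0) := by
            field_simp; norm_num
          have h4 : 2 * (1 / (96 * L * D) * ρ u v) = ρ u v / (48 * L * D) := by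
            field_simp; norm_num
          rw [h3, h4, div_le_div_iff₀ (by positivity) (by positivity)]
          have h5 : ρ u v * (24 * D * 2 ^ j0) = 24 * D * (ρ u v * 2 ^ j0) := by ring
          rw [h5]
          have h6 : 24 * D * (ρ u v * 2 ^ j0) ≤ 24 * D * (2 * L) :=
            mul_le_mul_of_nonneg_left hj4 (by positivity)
          linarith
        rcases good_grid (yy true u) j0 with g | g
        · linarith [hgood true g.1 g.2, hE0 false]
        · rw [← hyf] at g
          linarith [hgood false g.1 g.2, hE0 true]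
    calc 1 / (96 * L * D) * (W * ρ u v) = W * (1 / (96 * L * D) * ρ u v) := by ring
      _ ≤ W * (1 / 2 * E true + 1 / 2 * E false) := mul_le_mul_of_nonneg_left key hW.le
  · rw [hmix, ← hWd]
    have h2 := (hup true).2
    have h3 := (hup false).2
    calc W * (1 / 2 * E true + 1 / 2 * E false) ≤ W * (2 * ρ u v) :=
          mul_le_mul_of_nonneg_left (by linarith) hW.le
      _ = 2 * (W * ρ u v) := by ring

/-- The finite metric space `X` embeds into `ℓ₁^k` with distortion at most `D`. -/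
def EmbedsSp (X : Type) [MetricSpace X] (D : ℝ) (k : ℕ) : Prop :=
  ∃ (f : X → L1fin k) (s : ℝ), 0 < s ∧ ∀ x y : X,
    s * dist x y ≤ dist (f x) (f y) ∧ dist (f x) (f y) ≤ s * D * dist x y

theorem EmbedsSp.mono {X : Type} [MetricSpace X] {D D' : ℝ} {k : ℕ} (h : EmbedsSp X D k)
    (hD : D ≤ D') : EmbedsSp X D' k := by
  obtain ⟨f, s, hs, hf⟩ := h
  refine ⟨f, s, hs, fun x y => ⟨(hf x y).1, (hf x y).2.trans ?_⟩⟩
  exact mul_le_mul_of_nonneg_right (mul_le_mul_of_nonneg_left hD hs.le) dist_nonneg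

theorem embedsSp_of_random {X : Type} [MetricSpace X] [Fintype X] {Ω : Type} [Fintype Ω]
    {p : Ω → ℝ} (hp : IsProb p) (ψ : Ω → X → ℝ) {a b B₁ : ℝ} (ha : 0 < a) (hB : 0 < B₁)
    (h1 : ∀ (x y : X) ω, |ψ ω x - ψ ω y| ≤ B₁ * dist x y)
    (h2 : ∀ x y : X, a * dist x y ≤ Ex p (fun ω => |ψ ω x - ψ ω y|))
    (h3 : ∀ x y : X, Ex p (fun ω => |ψ ω x - ψ ω y|) ≤ b * dist x y)
    {k : ℕ} (hk0 : 0 < k)
    (hk : 2 * (Fintype.card X : ℝ) ^ 2 * Real.exp (-(k * (a / B₁) / 16)) < 1) :
    EmbedsSp X (4 * b / a) k := by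
  classical
  set f : {q : X × X // q.1 ≠ q.2} → Ω → ℝ := fun q ω =>
    |ψ ω q.1.1 - ψ ω q.1.2| / (B₁ * dist q.1.1 q.1.2) with hf
  have hd : ∀ q : {q : X × X // q.1 ≠ q.2}, 0 < dist q.1.1 q.1.2 := fun q => dist_pos.2 q.2
  have hBd : ∀ q : {q : X × X // q.1 ≠ q.2}, 0 < B₁ * dist q.1.1 q.1.2 := fun q =>
    mul_pos hB (hd q)
  have hf0 : ∀ q ω, 0 ≤ f q ω := fun q ω => div_nonneg (abs_nonneg _) (hBd q).le
  have hf1 : ∀ q ω, f q ω ≤ 1 := fun q ω => (div_le_one (hBd q)).2 (h1 _ _ ω)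
  have hEf : ∀ q, Ex p (f q) =
      Ex p (fun ω => |ψ ω q.1.1 - ψ ω q.1.2|) / (B₁ * dist q.1.1 q.1.2) := by
    intro q
    have : f q = fun ω => (1 / (B₁ * dist q.1.1 q.1.2)) * |ψ ω q.1.1 - ψ ω q.1.2| := by
      funext ω; rw [hf]; simp only; ring
    rw [this, Ex_mul_left]; ring
  have hθ : ∀ q, a / B₁ ≤ Ex p (f q) := by
    intro q
    rw [hEf q, div_le_div_iff₀ hB (hBd q)]
    have := mul_le_mul_of_nonneg_left (h2 q.1.1 q.1.2) hB.le
    linarith
  have hcard : 2 * (Fintype.card {q : X × X // q.1 ≠ q.2} : ℝ) *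
      Real.exp (-(k * (a / B₁) / 16)) < 1 := by
    refine lt_of_le_of_lt ?_ hk
    apply mul_le_mul_of_nonneg_right _ (Real.exp_pos _).le
    apply mul_le_mul_of_nonneg_left _ (by norm_num)
    have h4 : Fintype.card {q : X × X // q.1 ≠ q.2} ≤ Fintype.card X ^ 2 := by
      refine (Fintype.card_subtype_le _).trans ?_
      rw [Fintype.card_prod, sq]
    exact_mod_cast h4
  obtain ⟨ω, hω⟩ := sampling hp f hf0 hf1 k (a / B₁) hθ hcard
  have hkR : (0 : ℝ) < k := by exact_mod_cast hk0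
  refine ⟨fun x => WithLp.toLp 1 (fun l => ψ (ω l) x), k * a / 2, by positivity, ?_⟩
  intro x y
  rw [PiLp.dist_eq_of_L1]
  have hsum : ∑ i : Fin k, dist ((WithLp.toLp 1 (fun l => ψ (ω l) x) : L1fin k) i)
      ((WithLp.toLp 1 (fun l => ψ (ω l) y) : L1fin k) i) = ∑ l : Fin k, |ψ (ω l) x - ψ (ω l) y| :=
    sum_congr rfl fun i _ => by simp [Real.dist_eq]
  rw [hsum]
  by_cases hxy : x = y
  · subst hxy; simp
  have hq := hω ⟨(x, y), hxy⟩
  have hdxy : 0 < dist x y := dist_pos.2 hxy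
  have hBxy : 0 < B₁ * dist x y := mul_pos hB hdxy
  have e1 : ∑ l, f ⟨(x, y), hxy⟩ (ω l) =
      (∑ l : Fin k, |ψ (ω l) x - ψ (ω l) y|) / (B₁ * dist x y) := by
    rw [hf]; simp only; rw [sum_div]
  rw [e1, hEf ⟨(x, y), hxy⟩] at hq
  simp only at hq
  obtain ⟨hq1, hq2⟩ := hq
  rw [le_div_iff₀ hBxy] at hq1
  rw [div_le_iff₀ hBxy] at hq2
  set E := Ex p (fun ω => |ψ ω x - ψ ω y|) with hE
  have e2 : k * (E / (B₁ * dist x y)) / 2 * (B₁ * dist x y) = k * E / 2 := by
    field_simp
  have e3 : 2 * k * (E / (B₁ * dist x y)) * (B₁ * dist x y) = 2 * k * E := by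
    field_simp
  rw [e2] at hq1
  rw [e3] at hq2
  constructor
  · have := mul_le_mul_of_nonneg_left (h2 x y) hkR.le
    linarith
  · have h5 := mul_le_mul_of_nonneg_left (h3 x y) hkR.le
    have h6 : k * a / 2 * (4 * b / a) * dist x y = 2 * (k * (b * dist x y)) := by
      field_simp; ring
    rw [h6]
    linarith

/-- the embedding of a finite metric space with a light function -/
theorem embeds_light {n : ℕ} (hn : 2 ≤ n) {L D : ℝ} (hL : 1 ≤ L) (hD : 768 * L ≤ D)
    (X : Type) [MetricSpace X] [Fintype X] (hM : Fintype.card X ≤ n) (h : X → ℝ)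
    (hh : IsLight L h) :
    ∃ k : ℕ, (k : ℝ) ≤ 65 * D * (n : ℝ) ^ (851000 * L ^ 2 / D ^ 2) * Real.log n ∧
      EmbedsSp X D k := by
  classical
  have hn2 : (2 : ℝ) ≤ n := by exact_mod_cast hn
  have hn0 : (0 : ℝ) < n := by linarith
  have hL0 : 0 < L := by linarith
  have hDpos : 0 < D := by nlinarith
  set D0 : ℝ := D / (768 * L) with hD0def
  have hD0 : 1 ≤ D0 := by
    rw [hD0def, le_div_iff₀ (by positivity)]; linarith
  have hD0p : 0 < D0 := by linarith
  have hDD : 768 * L * D0 = D := by rw [hD0def]; field_simp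
  set Lg := Real.log n with hLg
  have hl2 : (0.6931471803 : ℝ) < Real.log 2 := Real.log_two_gt_d9
  have hLg2 : Real.log 2 ≤ Lg := Real.log_le_log (by norm_num) hn2
  have hLgp : 0 < Lg := by linarith
  set c0 : ℕ := Nat.log 2 n with hc0
  set x : ℝ := 1 / D0 ^ 2 with hx
  have hxp : 0 < x := by positivity
  set lam : ℝ := 2 * (1 + x) ^ c0 with hlamdef
  have hpow1 : 1 ≤ (1 + x) ^ c0 := one_le_pow₀ (by linarith)
  have hl : 1 ≤ lam := by linarith
  have hlam : ∀ c : ℕ, 2 ^ c ≤ Fintype.card X → 2 * (1 + 1 / D0 ^ 2) ^ c ≤ lam := by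
    intro c hc
    have h1 : 2 ^ c ≤ n := hc.trans hM
    have h2 : c ≤ c0 := Nat.le_log_of_pow_le (by norm_num) h1
    rw [hlamdef]
    exact mul_le_mul_of_nonneg_left (pow_le_pow_right₀ (by linarith) h2) (by norm_num)
  set P : ℝ := (n : ℝ) ^ (851000 * L ^ 2 / D ^ 2) with hP
  have hP1 : 1 ≤ P := Real.one_le_rpow (by linarith) (by positivity)
  have hlamP : lam ≤ 2 * P := by
    have hc1 : (c0 : ℝ) * Real.log 2 ≤ Lg := by
      have h1 : 2 ^ c0 ≤ n := Nat.pow_log_le_self 2 (by omega)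
      have h2 : ((2 : ℝ) ^ c0) ≤ n := by exact_mod_cast h1
      have h3 := Real.log_le_log (by positivity) h2
      rwa [Real.log_pow] at h3
    have h2 : (1 + x) ^ c0 ≤ Real.exp (x * c0) := by
      have h3 : 1 + x ≤ Real.exp x := by linarith [Real.add_one_le_exp x]
      calc (1 + x) ^ c0 ≤ (Real.exp x) ^ c0 := pow_le_pow_left₀ (by linarith) h3 c0
        _ = Real.exp (x * c0) := by rw [← Real.exp_nat_mul, mul_comm]
    have h4 : P = Real.exp (Lg * (851000 * L ^ 2 / D ^ 2)) := by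
      rw [hP, Real.rpow_def_of_pos hn0]
    have h5 : x = 589824 * (L ^ 2 / D ^ 2) := by
      rw [hx, hD0def]; field_simp; norm_num
    have h6 : x * c0 ≤ Lg * (851000 * L ^ 2 / D ^ 2) := by
      have h7 : Lg * (851000 * L ^ 2 / D ^ 2) = (L ^ 2 / D ^ 2) * (851000 * Lg) := by ring
      have h8 : x * c0 = (L ^ 2 / D ^ 2) * (589824 * c0) := by rw [h5]; ring
      rw [h7, h8]
      apply mul_le_mul_of_nonneg_left _ (by positivity)
      have h9 : (c0 : ℝ) * 0.6931471803 ≤ Lg :=
        (mul_le_mul_of_nonneg_left hl2.le (Nat.cast_nonneg _)).trans hc1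
      have h10 : (0 : ℝ) ≤ c0 := Nat.cast_nonneg _
      linarith
    have h11 : (1 + x) ^ c0 ≤ P := by
      rw [h4]
      exact h2.trans (Real.exp_le_exp.2 h6)
    rw [hlamdef]; linarith
  obtain ⟨Ω, _, p, ψ, hp, hψ⟩ := random_light hL hD0 hl h hh hlam
  set a : ℝ := 1 / (96 * L * D0) with ha
  have ha0 : 0 < a := by positivity
  have hB0 : 0 < 4 * lam := by linarith
  have hθ0 : 0 < a / (4 * lam) := by positivity
  set k : ℕ := ⌈64 * Lg / (a / (4 * lam))⌉₊ with hk
  have hk0 : 0 < k := Nat.ceil_pos.2 (by positivity)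
  have hk1 : 64 * Lg ≤ k * (a / (4 * lam)) := by
    have h1 := Nat.le_ceil (64 * Lg / (a / (4 * lam)))
    rwa [div_le_iff₀ hθ0] at h1
  have hk2 : (k : ℝ) ≤ 64 * Lg / (a / (4 * lam)) + 1 :=
    (Nat.ceil_lt_add_one (a := 64 * Lg / (a / (4 * lam))) (by positivity)).le
  have hemb : EmbedsSp X D k := by
    have h1 : EmbedsSp X (4 * 2 / a) k := by
      refine embedsSp_of_random hp ψ ha0 hB0 (fun x y ω => (hψ x y).1 ω) (fun x y => (hψ x y).2.1)
        (fun x y => (hψ x y).2.2) hk0 ?_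
      have h2 : (Fintype.card X : ℝ) ≤ n := by exact_mod_cast hM
      have h3 : Real.exp (-(k * (a / (4 * lam)) / 16)) ≤ Real.exp (-(4 * Lg)) := by
        apply Real.exp_le_exp.2; linarith
      have h4 : Real.exp (-(4 * Lg)) = 1 / (n : ℝ) ^ 4 := by
        have : Real.exp (4 * Lg) = (n : ℝ) ^ 4 := by
          have h5 := Real.exp_nat_mul Lg 4
          push_cast at h5
          rw [h5, hLg, Real.exp_log hn0]
        rw [Real.exp_neg, this, one_div]
      rw [h4] at h3
      calc 2 * (Fintype.card X : ℝ) ^ 2 * Real.exp (-(k * (a / (4 * lam)) / 16))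
          ≤ 2 * (n : ℝ) ^ 2 * (1 / (n : ℝ) ^ 4) := by
            apply mul_le_mul _ h3 (Real.exp_pos _).le (by positivity)
            apply mul_le_mul_of_nonneg_left _ (by norm_num)
            exact pow_le_pow_left₀ (Nat.cast_nonneg _) h2 2
        _ = 2 / (n : ℝ) ^ 2 := by field_simp
        _ < 1 := by
            rw [div_lt_one (by positivity)]
            nlinarith
    refine EmbedsSp.mono h1 (le_of_eq ?_)
    rw [← hDD, ha]; field_simp; norm_num
  have hkbound : (k : ℝ) ≤ 65 * D * P * Lg := by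
    have h1 : 64 * Lg / (a / (4 * lam)) = 64 * Lg * (4 * lam) * (96 * L * D0) := by
      rw [ha]; field_simp
    have h2 : 64 * Lg * (4 * lam) * (96 * L * D0) ≤ 64 * Lg * (4 * (2 * P)) * (96 * L * D0) := by
      apply mul_le_mul_of_nonneg_right _ (by positivity)
      apply mul_le_mul_of_nonneg_left _ (by positivity)
      linarith
    have h3 : 64 * Lg * (4 * (2 * P)) * (96 * L * D0) = 64 * D * P * Lg := by
      rw [← hDD]; ring
    have hD768 : 768 ≤ D := by nlinarith
    have h4 : 1 ≤ D * P * Lg := by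
      have h5 : 768 * 1 ≤ D * P := mul_le_mul hD768 hP1 (by norm_num) hDpos.le
      have h6 : 768 * 1 * 0.5 ≤ D * P * Lg :=
        mul_le_mul h5 (by linarith) (by norm_num) (by positivity)
      linarith
    linarith
  exact ⟨k, hkbound, hemb⟩

/-- the dimension bound for finite subsets of `ℓ₁` with a light function -/
theorem dim_light {n : ℕ} (hn : 2 ≤ n) {L D : ℝ} (hL : 1 ≤ L) (hD : 768 * L ≤ D)
    (M : Finset L1) (hM : M.card ≤ n) (h : M → ℝ) (hh : IsLight L h) :
    dimD M D ≤ ((⌊65 * D * (n : ℝ) ^ (851000 * L ^ 2 / D ^ 2) * Real.log n⌋₊ : ℕ) : ℕ∞) := by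
  obtain ⟨k, hk, hemb⟩ := embeds_light hn hL hD M (by rw [Fintype.card_coe]; exact hM) h hh
  have hkfl : k ≤ ⌊65 * D * (n : ℝ) ^ (851000 * L ^ 2 / D ^ 2) * Real.log n⌋₊ := Nat.le_floor hk
  unfold dimD
  refine (iInf_le_of_le k (iInf_le _ (show Embeds M D k from hemb))).trans ?_
  exact_mod_cast hkfl

end Pool.Agent.Lib.MP_716709_gt.Light93
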