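import Pool.Agent.Lib.MP_716709_gt.Light93.Cascade

/-!
Two points under the random cascade: upper bounds and the separation.
-/

set_option autoImplicit false
set_option linter.unusedSectionVars false
set_option linter.unusedVariables false

namespace Pool.Agent.Lib.MP_716709_gt.Light93

open Finset
open Pool.Agent.Lib.MP_716709_gt.Upper

section pairs

variable {M : Type} [Fintype M] [DecidableEq M] {J : ℕ} {y : M → ℝ} {ρ : M → M → ℝ} {D lam : ℝ}

/-- the intervals of values are nested -/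
theorem nest_succ (hD : 1 ≤ D) (hl : 1 ≤ lam) (ω : Om M J) (u : M) (j : ℕ) :
    A y ρ D lam ω u j ≤ A y ρ D lam ω u (j + 1) ∧
    A y ρ D lam ω u (j + 1) + S y ρ D lam ω u (j + 1) / 2 ^ (j + 1) ≤
      A y ρ D lam ω u j + S y ρ D lam ω u j / 2 ^ j := by
  have hS := (S_bounds (y := y) (ρ := ρ) hD hl ω u j).1
  have hn := abs_le.1 (noise_abs (y := y) (ρ := ρ) (lam := lam) hD ω j (C y ρ j u) u
    (S y ρ D lam ω u j))
  rw [A, S]
  set e := sg ω j (C y ρ j u) * amp y ρ D lam j u (S y ρ D lam ω u j) with he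
  set s := S y ρ D lam ω u j with hs
  set a := A y ρ D lam ω u j with ha
  have hx : 0 ≤ s / 2 ^ (j + 1) := by positivity
  have hx2 : s / 2 ^ j = 2 * (s / 2 ^ (j + 1)) := by
    rw [pow_succ]; field_simp
  by_cases h : 1 / 2 ≤ fr (y u) j
  · rw [if_pos h, if_pos h, hx2]
    have h1 : s * (1 + e) / 2 ^ (j + 1) = s / 2 ^ (j + 1) * (1 + e) := by ring
    have h2 : s * (1 + -1 * e) / 2 ^ (j + 1) = s / 2 ^ (j + 1) * (1 - e) := by ring
    rw [h1, h2]
    have h3 : 0 ≤ s / 2 ^ (j + 1) * (1 + e) := mul_nonneg hx (by linarith [hn.1])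
    constructor
    · linarith
    · linarith
  · rw [if_neg h, if_neg h, hx2]
    have h2 : s * (1 + 1 * e) / 2 ^ (j + 1) = s / 2 ^ (j + 1) * (1 + e) := by ring
    rw [h2]
    have h3 : s / 2 ^ (j + 1) * (1 + e) ≤ s / 2 ^ (j + 1) * 2 :=
      mul_le_mul_of_nonneg_left (by linarith [hn.2]) hx
    constructor
    · linarith
    · linarith

theorem nest (hD : 1 ≤ D) (hl : 1 ≤ lam) (ω : Om M J) (u : M) {i j : ℕ} (hij : i ≤ j) :
    A y ρ D lam ω u i ≤ A y ρ D lam ω u j ∧
    A y ρ D lam ω u j + S y ρ D lam ω u j / 2 ^ j ≤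
      A y ρ D lam ω u i + S y ρ D lam ω u i / 2 ^ i := by
  induction j, hij using Nat.le_induction with
  | base => exact ⟨le_rfl, le_rfl⟩
  | succ j hij ih =>
    have h := nest_succ (y := y) (ρ := ρ) (lam := lam) hD hl ω u j
    exact ⟨ih.1.trans h.1, h.2.trans ih.2⟩

/-- the value lies in the interval of each level -/
theorem F_mem (hD : 1 ≤ D) (hl : 1 ≤ lam) (ω : Om M J) (u : M) {j : ℕ} (hj : j ≤ J) :
    A y ρ D lam ω u j ≤ F y ρ D lam ω u ∧
    F y ρ D lam ω u ≤ A y ρ D lam ω u j + S y ρ D lam ω u j / 2 ^ j := by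
  have h := nest (y := y) (ρ := ρ) (lam := lam) hD hl ω u hj
  have hS := (S_bounds (y := y) (ρ := ρ) hD hl ω u J).1
  have h0 := fr_nonneg (y u) J
  have h1 := fr_lt_one (y u) J
  unfold F G
  have hx : 0 ≤ S y ρ D lam ω u J / 2 ^ J := by positivity
  have h2 : S y ρ D lam ω u J * fr (y u) J / 2 ^ J = S y ρ D lam ω u J / 2 ^ J * fr (y u) J := by
    ring
  rw [h2]
  have h3 : 0 ≤ S y ρ D lam ω u J / 2 ^ J * fr (y u) J := mul_nonneg hx h0
  have h4 : S y ρ D lam ω u J / 2 ^ J * fr (y u) J ≤ S y ρ D lam ω u J / 2 ^ J * 1 :=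
    mul_le_mul_of_nonneg_left h1.le hx
  constructor
  · linarith [h.1]
  · linarith [h.2]

/-- the distance to the left end -/
theorem left_claim (hD : 1 ≤ D) (hl : 1 ≤ lam) (ω : Om M J) (u : M) {i : ℕ} (hi : i ≤ J) :
    F y ρ D lam ω u - A y ρ D lam ω u i ≤ 4 * lam * (fr (y u) i / 2 ^ i) := by
  induction hi using Nat.decreasingInduction with
  | self =>
    have hS := (S_bounds (y := y) (ρ := ρ) hD hl ω u J).2
    have h0 := fr_nonneg (y u) J
    have hx : 0 ≤ fr (y u) J / 2 ^ J := by positivity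
    unfold F G
    have h2 : A y ρ D lam ω u J + S y ρ D lam ω u J * fr (y u) J / 2 ^ J - A y ρ D lam ω u J =
        S y ρ D lam ω u J * (fr (y u) J / 2 ^ J) := by ring
    rw [h2]
    exact mul_le_mul_of_nonneg_right (by linarith) hx
  | of_succ i hi ih =>
    by_cases h : 1 / 2 ≤ fr (y u) i
    · have h1 := (F_mem (y := y) (ρ := ρ) (lam := lam) hD hl ω u hi.le).2
      have hS := (S_bounds (y := y) (ρ := ρ) hD hl ω u i).2
      have hp : (0 : ℝ) < 2 ^ i := by positivity
      have h3 : S y ρ D lam ω u i / 2 ^ i ≤ 2 * lam / 2 ^ i :=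
        div_le_div_of_nonneg_right hS hp.le
      have h4 : 4 * lam * (fr (y u) i / 2 ^ i) = 4 * lam * fr (y u) i / 2 ^ i := by ring
      rw [h4]
      have h5 : 2 * lam / 2 ^ i ≤ 4 * lam * fr (y u) i / 2 ^ i :=
        div_le_div_of_nonneg_right (by nlinarith) hp.le
      linarith
    · have h1 : A y ρ D lam ω u (i + 1) = A y ρ D lam ω u i := by
        rw [A, if_neg h, add_zero]
      rw [h1, fr_succ_lo h] at ih
      have h2 : 2 * fr (y u) i / 2 ^ (i + 1) = fr (y u) i / 2 ^ i := by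
        rw [pow_succ]; field_simp
      rw [h2] at ih
      exact ih

/-- the distance to the right end -/
theorem right_claim (hD : 1 ≤ D) (hl : 1 ≤ lam) (ω : Om M J) (u : M) {i : ℕ} (hi : i ≤ J) :
    A y ρ D lam ω u i + S y ρ D lam ω u i / 2 ^ i - F y ρ D lam ω u ≤
      4 * lam * ((1 - fr (y u) i) / 2 ^ i) := by
  induction hi using Nat.decreasingInduction with
  | self =>
    have hS := (S_bounds (y := y) (ρ := ρ) hD hl ω u J).2
    have h0 := fr_lt_one (y u) J
    have hx : 0 ≤ (1 - fr (y u) J) / 2 ^ J := div_nonneg (by linarith) (by positivity)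
    unfold F G
    have h2 : A y ρ D lam ω u J + S y ρ D lam ω u J / 2 ^ J -
        (A y ρ D lam ω u J + S y ρ D lam ω u J * fr (y u) J / 2 ^ J) =
        S y ρ D lam ω u J * ((1 - fr (y u) J) / 2 ^ J) := by ring
    rw [h2]
    exact mul_le_mul_of_nonneg_right (by linarith) hx
  | of_succ i hi ih =>
    by_cases h : 1 / 2 ≤ fr (y u) i
    · have h1 : A y ρ D lam ω u (i + 1) + S y ρ D lam ω u (i + 1) / 2 ^ (i + 1) =
          A y ρ D lam ω u i + S y ρ D lam ω u i / 2 ^ i := by
        rw [A, S, if_pos h, if_pos h, pow_succ]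
        field_simp
        ring
      rw [h1, fr_succ_hi h] at ih
      have h2 : (1 - (2 * fr (y u) i - 1)) / 2 ^ (i + 1) = (1 - fr (y u) i) / 2 ^ i := by
        rw [pow_succ]; field_simp; ring
      rw [h2] at ih
      exact ih
    · have h1 := (F_mem (y := y) (ρ := ρ) (lam := lam) hD hl ω u hi.le).1
      have hS := (S_bounds (y := y) (ρ := ρ) hD hl ω u i).2
      have hp : (0 : ℝ) < 2 ^ i := by positivity
      push Not at h
      have h3 : S y ρ D lam ω u i / 2 ^ i ≤ 2 * lam / 2 ^ i :=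
        div_le_div_of_nonneg_right hS hp.le
      have h4 : 4 * lam * ((1 - fr (y u) i) / 2 ^ i) = 4 * lam * (1 - fr (y u) i) / 2 ^ i := by
        ring
      rw [h4]
      have h5 : 2 * lam / 2 ^ i ≤ 4 * lam * (1 - fr (y u) i) / 2 ^ i :=
        div_le_div_of_nonneg_right (by nlinarith) hp.le
      linarith

theorem amp_same (hsym : ∀ a b, ρ a b = ρ b a) {u v : M} {j : ℕ} (hj : C y ρ j u = C y ρ j v)
    (s : ℝ) : amp y ρ D lam j u s = amp y ρ D lam j v s := by
  have hsm : Small y ρ j u ↔ Small y ρ j v := by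
    unfold Small
    rw [hj, C_eq_le hsym (Nat.sub_le j 1) hj]
  unfold amp
  by_cases h5 : Small y ρ j v ∧ s < lam
  · rw [if_pos h5, if_pos ⟨hsm.2 h5.1, h5.2⟩]
  · rw [if_neg h5, if_neg (fun h6 => h5 ⟨hsm.1 h6.1, h6.2⟩)]

/-- two points in the two halves of a component -/
theorem pair_lohi (hD : 1 ≤ D) (hl : 1 ≤ lam) (hsym : ∀ a b, ρ a b = ρ b a) (ω : Om M J)
    {u v : M} {j : ℕ} (hj : j < J) (hC : C y ρ j u = C y ρ j v)
    (hu : ¬ 1 / 2 ≤ fr (y u) j) (hv : 1 / 2 ≤ fr (y v) j) :
    0 ≤ F y ρ D lam ω v - F y ρ D lam ω u ∧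
    F y ρ D lam ω v - F y ρ D lam ω u ≤ 4 * lam * (y v - y u) := by
  obtain ⟨hS, hA⟩ := SA_same (D := D) (lam := lam) hsym ω hC
  have hamp := amp_same (D := D) (lam := lam) hsym hC
  have hix := (conn_of_C_eq hC).ix_eq
  have hmid : A y ρ D lam ω u (j + 1) + S y ρ D lam ω u (j + 1) / 2 ^ (j + 1) =
      A y ρ D lam ω v (j + 1) := by
    rw [A, A, S, if_neg hu, if_neg hu, if_pos hv, hS, hA, hC, hamp]
    ring
  have h1 := F_mem (y := y) (ρ := ρ) (lam := lam) hD hl ω u (show j + 1 ≤ J by omega)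
  have h2 := F_mem (y := y) (ρ := ρ) (lam := lam) hD hl ω v (show j + 1 ≤ J by omega)
  have h3 := left_claim (y := y) (ρ := ρ) (lam := lam) hD hl ω v (show j + 1 ≤ J by omega)
  have h4 := right_claim (y := y) (ρ := ρ) (lam := lam) hD hl ω u (show j + 1 ≤ J by omega)
  have e1 := ix_add_fr (y u) (j + 1)
  have e2 := ix_add_fr (y v) (j + 1)
  rw [ix_succ_lo hu] at e1
  rw [ix_succ_hi hv, ← hix] at e2
  push_cast at e1 e2
  have h5 : fr (y v) (j + 1) / 2 ^ (j + 1) + (1 - fr (y u) (j + 1)) / 2 ^ (j + 1) = y v - y u := by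
    have hp : (0 : ℝ) < 2 ^ (j + 1) := by positivity
    rw [← add_div, div_eq_iff hp.ne']
    linarith
  constructor
  · linarith [h1.2, h2.1]
  · rw [← h5, mul_add]
    linarith

theorem first_diff {u v : M} {J : ℕ} (h0 : C y ρ 0 u = C y ρ 0 v) (h : C y ρ J u ≠ C y ρ J v) :
    ∃ j < J, C y ρ j u = C y ρ j v ∧ C y ρ (j + 1) u ≠ C y ρ (j + 1) v := by
  induction J with
  | zero => exact absurd h0 h
  | succ J ih =>
    by_cases hJ : C y ρ J u = C y ρ J v
    · exact ⟨J, by omega, hJ, h⟩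
    · obtain ⟨j, hj, h2⟩ := ih hJ
      exact ⟨j, by omega, h2⟩

theorem Ex_F (u : M) (h0 : 0 ≤ y u) (h1 : y u < 1) :
    Ex (un M J) (fun ω => F y ρ D lam ω u) = y u := Ex_G u h0 h1 le_rfl

/-- the two upper bounds for a pair -/
theorem pair_upper (hD : 1 ≤ D) (hl : 1 ≤ lam) (hsym : ∀ a b, ρ a b = ρ b a)
    (h0 : ∀ u, 0 ≤ y u) (h1 : ∀ u, y u < 1) (hρ : ∀ a b, ρ a b ≤ 1)
    (hlip : ∀ a b, |y a - y b| ≤ ρ a b) (u v : M) :
    (∀ ω : Om M J, |F y ρ D lam ω u - F y ρ D lam ω v| ≤ 4 * lam * ρ u v) ∧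
    Ex (un M J) (fun ω => |F y ρ D lam ω u - F y ρ D lam ω v|) ≤ 2 * ρ u v := by
  have hρ0 : 0 ≤ ρ u v := (abs_nonneg _).trans (hlip u v)
  have hl0 : 0 < lam := by linarith
  by_cases hC : C y ρ J u = C y ρ J v
  · have hix := (conn_of_C_eq hC).ix_eq
    have hF : ∀ ω : Om M J, F y ρ D lam ω u - F y ρ D lam ω v =
        S y ρ D lam ω u J * (y u - y v) := by
      intro ω
      obtain ⟨hS, hA⟩ := SA_same (D := D) (lam := lam) hsym ω hC
      have e1 := ix_add_fr (y u) J
      have e2 := ix_add_fr (y v) J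
      rw [hix] at e1
      unfold F G
      rw [← hS, ← hA]
      have hp : (0 : ℝ) < 2 ^ J := by positivity
      have h3 : (fr (y u) J - fr (y v) J) / 2 ^ J = y u - y v := by
        rw [div_eq_iff hp.ne']; linarith
      rw [← h3]; ring
    constructor
    · intro ω
      have hS := S_bounds (y := y) (ρ := ρ) hD hl ω u J
      rw [hF, abs_mul, abs_of_nonneg hS.1]
      calc S y ρ D lam ω u J * |y u - y v| ≤ (2 * lam) * |y u - y v| :=
            mul_le_mul_of_nonneg_right hS.2 (abs_nonneg _)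
        _ ≤ (2 * lam) * ρ u v := mul_le_mul_of_nonneg_left (hlip u v) (by linarith)
        _ ≤ 4 * lam * ρ u v := by nlinarith
    · have h2 : (fun ω : Om M J => |F y ρ D lam ω u - F y ρ D lam ω v|) =
          fun ω => |y u - y v| * S y ρ D lam ω u J := by
        funext ω
        rw [hF, abs_mul, abs_of_nonneg (S_bounds (y := y) (ρ := ρ) hD hl ω u J).1]; ring
      rw [h2, Ex_mul_left, Ex_S u le_rfl]
      linarith [hlip u v]
  · obtain ⟨j, hj, hCj, hCj'⟩ := first_diff (C_zero_eq hsym h0 h1 hρ u v) hC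
    by_cases hbig : 1 / 2 ^ (j + 1) < ρ u v
    · have hdiff : ∀ ω : Om M J, |F y ρ D lam ω u - F y ρ D lam ω v| ≤
          (1 / 2 ^ j) * S y ρ D lam ω u j := by
        intro ω
        obtain ⟨hS, hA⟩ := SA_same (D := D) (lam := lam) hsym ω hCj
        have f1 := F_mem (y := y) (ρ := ρ) (lam := lam) hD hl ω u hj.le
        have f2 := F_mem (y := y) (ρ := ρ) (lam := lam) hD hl ω v hj.le
        rw [← hS, ← hA] at f2
        rw [abs_le]
        have h3 : (1 / 2 ^ j) * S y ρ D lam ω u j = S y ρ D lam ω u j / 2 ^ j := by ring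
        rw [h3]
        constructor <;> linarith [f1.1, f1.2, f2.1, f2.2]
      have h4 : (1 : ℝ) / 2 ^ j = 2 * (1 / 2 ^ (j + 1)) := by
        rw [pow_succ]; field_simp
      constructor
      · intro ω
        have hS := S_bounds (y := y) (ρ := ρ) hD hl ω u j
        refine (hdiff ω).trans ?_
        have hp : (0 : ℝ) < 1 / 2 ^ j := by positivity
        calc (1 / 2 ^ j) * S y ρ D lam ω u j ≤ (1 / 2 ^ j) * (2 * lam) :=
              mul_le_mul_of_nonneg_left hS.2 hp.le
          _ = 4 * lam * (1 / 2 ^ (j + 1)) := by rw [h4]; ring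
          _ ≤ 4 * lam * ρ u v := mul_le_mul_of_nonneg_left hbig.le (by linarith)
      · calc Ex (un M J) (fun ω => |F y ρ D lam ω u - F y ρ D lam ω v|)
            ≤ Ex (un M J) (fun ω => (1 / 2 ^ j) * S y ρ D lam ω u j) := Ex_mono isProb_un hdiff
          _ = 1 / 2 ^ j := by rw [Ex_mul_left, Ex_S u hj.le, mul_one]
          _ ≤ 2 * ρ u v := by rw [h4]; linarith
    · push Not at hbig
      have hne : ix (y u) (j + 1) ≠ ix (y v) (j + 1) := by
        intro h
        exact hCj' (C_eq_of_conn hsym (Relation.ReflTransGen.single ⟨h, hbig⟩))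
      have hix := (conn_of_C_eq hCj).ix_eq
      have key : (∀ ω : Om M J, 0 ≤ F y ρ D lam ω v - F y ρ D lam ω u ∧
            F y ρ D lam ω v - F y ρ D lam ω u ≤ 4 * lam * (y v - y u)) ∨
          (∀ ω : Om M J, 0 ≤ F y ρ D lam ω u - F y ρ D lam ω v ∧
            F y ρ D lam ω u - F y ρ D lam ω v ≤ 4 * lam * (y u - y v)) := by
        by_cases hu : 1 / 2 ≤ fr (y u) j <;> by_cases hv : 1 / 2 ≤ fr (y v) j
        · exact absurd (by rw [ix_succ_hi hu, ix_succ_hi hv, hix]) hne
        · exact Or.inr fun ω => pair_lohi hD hl hsym ω hj hCj.symm hv hu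
        · exact Or.inl fun ω => pair_lohi hD hl hsym ω hj hCj hu hv
        · exact absurd (by rw [ix_succ_lo hu, ix_succ_lo hv, hix]) hne
      have hab := abs_le.1 (hlip u v)
      rcases key with key | key
      · have e : ∀ ω : Om M J, |F y ρ D lam ω u - F y ρ D lam ω v| =
            F y ρ D lam ω v - F y ρ D lam ω u := by
          intro ω
          rw [abs_sub_comm, abs_of_nonneg (key ω).1]
        constructor
        · intro ω
          rw [e]
          refine (key ω).2.trans (mul_le_mul_of_nonneg_left ?_ (by linarith))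
          linarith [hab.1]
        · simp only [e]
          rw [Ex_sub, Ex_F v (h0 v) (h1 v), Ex_F u (h0 u) (h1 u)]
          linarith [hab.1]
      · have e : ∀ ω : Om M J, |F y ρ D lam ω u - F y ρ D lam ω v| =
            F y ρ D lam ω u - F y ρ D lam ω v := by
          intro ω
          rw [abs_of_nonneg (key ω).1]
        constructor
        · intro ω
          rw [e]
          refine (key ω).2.trans (mul_le_mul_of_nonneg_left ?_ (by linarith))
          linarith [hab.2]
        · simp only [e]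
          rw [Ex_sub, Ex_F v (h0 v) (h1 v), Ex_F u (h0 u) (h1 u)]
          linarith [hab.2]

/-- the mean distance is at least the difference of the means -/
theorem mean_lower (h0 : ∀ u, 0 ≤ y u) (h1 : ∀ u, y u < 1) (u v : M) :
    |y u - y v| ≤ Ex (un M J) (fun ω => |F y ρ D lam ω u - F y ρ D lam ω v|) := by
  have e : Ex (un M J) (fun ω => F y ρ D lam ω u - F y ρ D lam ω v) = y u - y v := by
    rw [Ex_sub, Ex_F u (h0 u) (h1 u), Ex_F v (h0 v) (h1 v)]
  rw [← e, abs_le]
  constructor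
  · have h2 : Ex (un M J) (fun ω => (-1) * |F y ρ D lam ω u - F y ρ D lam ω v|) ≤
        Ex (un M J) (fun ω => F y ρ D lam ω u - F y ρ D lam ω v) :=
      Ex_mono isProb_un fun ω => by
        have := neg_abs_le (F y ρ D lam ω u - F y ρ D lam ω v)
        linarith
    rw [Ex_mul_left] at h2
    linarith
  · exact Ex_mono isProb_un fun ω => le_abs_self _

/-- a small component is moved away by its own sign -/
theorem sep_small (hD : 1 ≤ D) (hl : 1 ≤ lam) {u v : M} {j : ℕ} (hj : j < J)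
    (hne : C y ρ j u ≠ C y ρ j v) (hsm : Small y ρ j u)
    (hlam : 2 * (1 + 1 / D ^ 2) ^ cnt y ρ u j ≤ lam) :
    tent (y u) j / (2 * D) ≤
      Ex (un M J) (fun ω => |F y ρ D lam ω u - F y ρ D lam ω v|) := by
  have hFv : Ex (un M J) (fun ω => F y ρ D lam ω v * sg ω j (C y ρ j u)) = 0 := by
    apply Ex_sg hj
    intro ω ω' h
    unfold F
    apply G_congr
    intro i hi
    apply h
    by_cases hij : i = j
    · right
      rw [hij]
      exact fun he => hne he.symm
    · left; exact hij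
  have hlow : Ex (un M J) (fun ω => G y ρ D lam ω u j * sg ω j (C y ρ j u)) = 0 := by
    apply Ex_sg hj
    intro ω ω' h
    apply G_congr
    intro i hi
    exact h _ _ (Or.inl (by omega))
  have hmid : Ex (un M J) (fun ω => G y ρ D lam ω u (j + 1) * sg ω j (C y ρ j u)) =
      tent (y u) j * Ex (un M J) (fun ω => S y ρ D lam ω u j *
        amp y ρ D lam j u (S y ρ D lam ω u j)) := by
    have e : (fun ω : Om M J => G y ρ D lam ω u (j + 1) * sg ω j (C y ρ j u)) =
        fun ω => G y ρ D lam ω u j * sg ω j (C y ρ j u) +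
          tent (y u) j * (S y ρ D lam ω u j * amp y ρ D lam j u (S y ρ D lam ω u j)) := by
      funext ω
      rw [G_succ]
      have hs := sg_sq ω j (C y ρ j u)
      linear_combination (S y ρ D lam ω u j * amp y ρ D lam j u (S y ρ D lam ω u j) *
        tent (y u) j) * hs
    rw [e, Ex_add, hlow, Ex_mul_left, zero_add]
  have hup : ∀ i, j + 1 ≤ i → i ≤ J →
      Ex (un M J) (fun ω => G y ρ D lam ω u i * sg ω j (C y ρ j u)) =
      Ex (un M J) (fun ω => G y ρ D lam ω u (j + 1) * sg ω j (C y ρ j u)) := by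
    intro i hi
    induction i, hi using Nat.le_induction with
    | base => intro _; rfl
    | succ i hi ih =>
      intro hiJ
      have e : (fun ω : Om M J => G y ρ D lam ω u (i + 1) * sg ω j (C y ρ j u)) =
          fun ω => G y ρ D lam ω u i * sg ω j (C y ρ j u) +
            (S y ρ D lam ω u i * amp y ρ D lam i u (S y ρ D lam ω u i) * tent (y u) i *
              sg ω j (C y ρ j u)) * sg ω i (C y ρ i u) := by
        funext ω
        rw [G_succ]; ring
      have hz : Ex (un M J) (fun ω => (S y ρ D lam ω u i * amp y ρ D lam i u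
          (S y ρ D lam ω u i) * tent (y u) i * sg ω j (C y ρ j u)) * sg ω i (C y ρ i u)) = 0 := by
        apply Ex_sg (show i < J by omega)
        intro ω ω' h
        have h3 := (SA_congr (y := y) (ρ := ρ) (D := D) (lam := lam) u i
          (fun i' hi' => h i' _ (Or.inl (by omega)))).1
        rw [h3, h j _ (Or.inl (by omega))]
      rw [e, Ex_add, ih (by omega), hz, add_zero]
  have h2 := Ex_S_amp (y := y) (ρ := ρ) hD (by linarith) u hj.le hsm hlam hl
  have h3 : Ex (un M J) (fun ω => (F y ρ D lam ω u - F y ρ D lam ω v) * sg ω j (C y ρ j u)) =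
      tent (y u) j * Ex (un M J) (fun ω => S y ρ D lam ω u j *
        amp y ρ D lam j u (S y ρ D lam ω u j)) := by
    have e : (fun ω : Om M J => (F y ρ D lam ω u - F y ρ D lam ω v) * sg ω j (C y ρ j u)) =
        fun ω => F y ρ D lam ω u * sg ω j (C y ρ j u) -
          F y ρ D lam ω v * sg ω j (C y ρ j u) := by
      funext ω; ring
    rw [e, Ex_sub, hFv, sub_zero, ← hmid, ← hup J (by omega) le_rfl]
    rfl
  calc tent (y u) j / (2 * D) = tent (y u) j * (1 / (2 * D)) := by ring
    _ ≤ tent (y u) j * Ex (un M J) (fun ω => S y ρ D lam ω u j *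
        amp y ρ D lam j u (S y ρ D lam ω u j)) :=
      mul_le_mul_of_nonneg_left h2 (tent_nonneg _ _)
    _ = Ex (un M J) (fun ω => (F y ρ D lam ω u - F y ρ D lam ω v) * sg ω j (C y ρ j u)) :=
      h3.symm
    _ ≤ Ex (un M J) (fun ω => |F y ρ D lam ω u - F y ρ D lam ω v|) :=
      Ex_mono isProb_un fun ω => by
        calc (F y ρ D lam ω u - F y ρ D lam ω v) * sg ω j (C y ρ j u)
            ≤ |(F y ρ D lam ω u - F y ρ D lam ω v) * sg ω j (C y ρ j u)| := le_abs_self _
          _ = |F y ρ D lam ω u - F y ρ D lam ω v| := by rw [abs_mul, abs_sg, mul_one]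

/-- points in different components are moved apart -/
theorem sep (hD : 1 ≤ D) (hl : 1 ≤ lam) (hsym : ∀ a b, ρ a b = ρ b a)
    (h0 : ∀ u, 0 ≤ y u) (h1 : ∀ u, y u < 1) (hρ : ∀ a b, ρ a b ≤ 1)
    (hlam : ∀ u j, 2 * (1 + 1 / D ^ 2) ^ cnt y ρ u j ≤ lam) {u v : M} {j0 : ℕ} (hj0 : j0 < J)
    (hne : C y ρ j0 u ≠ C y ρ j0 v) {c : ℝ} (hu : c ≤ tent (y u) j0) (hv : c ≤ tent (y v) j0) :
    c / (2 * D) ≤ Ex (un M J) (fun ω => |F y ρ D lam ω u - F y ρ D lam ω v|) := by
  obtain ⟨j, hj, hC, hC'⟩ := first_diff (C_zero_eq hsym h0 h1 hρ u v) hne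
  have hdisj := C_disjoint hsym hC'
  have hcard : (C y ρ (j + 1) u).card + (C y ρ (j + 1) v).card ≤ (C y ρ j u).card := by
    rw [← card_union_of_disjoint hdisj]
    apply card_le_card
    apply union_subset (C_succ_subset j u)
    rw [hC]; exact C_succ_subset j v
  have hsmall : Small y ρ (j + 1) u ∨ Small y ρ (j + 1) v := by
    unfold Small
    rw [Nat.add_sub_cancel, ← hC]
    omega
  have hD0 : 0 < 2 * D := by linarith
  rcases hsmall with h | h
  · have h2 := sep_small (J := J) hD hl (show j + 1 < J by omega) hC' h (hlam u (j + 1))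
    refine le_trans ?_ h2
    exact div_le_div_of_nonneg_right (hu.trans (tent_anti _ (by omega))) hD0.le
  · have h2 := sep_small (J := J) hD hl (show j + 1 < J by omega) (Ne.symm hC') h
      (hlam v (j + 1))
    refine le_trans ?_ (h2.trans (le_of_eq ?_))
    · exact div_le_div_of_nonneg_right (hv.trans (tent_anti _ (by omega))) hD0.le
    · congr 1
      funext ω
      exact abs_sub_comm _ _

end pairs

end Pool.Agent.Lib.MP_716709_gt.Light93
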